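import Mathlib
import Pool.Agent.H469R10.HO.N6

/-!
# Prescribed coefficients in the Selberg class, I: dilations of the cell norm

`u n` are nonnegative frequencies and `cell (u n)` their cells; multiplying all frequencies by `r ≥ 1` multiplies
the weighted cell norm by at most `600 r²`.
-/

set_option autoImplicit false

open Finset MeasureTheory

namespace Pool.Agent.Q286.SP

open Pool.Agent.H469R10.HO

lemma cell_bounds {u : ℝ} (hu : 0 ≤ u) : (cell u : ℝ) ≤ 2 / Real.pi * u + 1 / 2 ∧ 2 / Real.pi * u + 1 / 2 < cell u + 1 := by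
  unfold cell
  exact ⟨Nat.floor_le (by positivity), Nat.lt_floor_add_one _⟩

/-- the cell of `u` is one of two cells when that of `r u` is given -/
lemma cell_two {r u : ℝ} (hr : 1 ≤ r) (hu : 0 ≤ u) :
    cell u = ⌊((cell (r * u) : ℝ) - 1 / 2) / r + 1 / 2⌋₊ ∨ cell u = ⌊((cell (r * u) : ℝ) - 1 / 2) / r + 1 / 2⌋₊ + 1 := by
  have hr0 : 0 < r := by linarith
  obtain ⟨h1, h2⟩ := cell_bounds hu
  obtain ⟨h3, h4⟩ := cell_bounds (mul_nonneg hr0.le hu)
  obtain ⟨x, hx⟩ : ∃ x : ℝ, x = 2 / Real.pi * u := ⟨_, rfl⟩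
  have hx0 : 0 ≤ x := by rw [hx]; positivity
  have e : 2 / Real.pi * (r * u) = r * x := by rw [hx]; ring
  rw [e] at h3 h4
  rw [← hx] at h1 h2
  obtain ⟨y, hy⟩ : ∃ y : ℝ, y = ((cell (r * u) : ℝ) - 1 / 2) / r + 1 / 2 := ⟨_, rfl⟩
  rw [← hy]
  have hy1 : y ≤ x + 1 / 2 := by
    have : ((cell (r * u) : ℝ) - 1 / 2) / r ≤ x := by
      rw [div_le_iff₀ hr0]
      linarith [mul_comm x r]
    rw [hy]; linarith
  have hy2 : x + 1 / 2 < y + 1 := by
    have : x < ((cell (r * u) : ℝ) - 1 / 2) / r + 1 := by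
      rw [div_add_one hr0.ne', lt_div_iff₀ hr0]
      nlinarith
    rw [hy]; linarith
  have hy0 : 0 ≤ y := by
    rw [hy]
    have h5 : -(1 / 2 : ℝ) ≤ ((cell (r * u) : ℝ) - 1 / 2) / r := by
      rw [le_div_iff₀ hr0]
      have : (0 : ℝ) ≤ cell (r * u) := Nat.cast_nonneg _
      nlinarith
    linarith
  have hc : cell u = ⌊x + 1 / 2⌋₊ := by unfold cell; rw [hx]
  rw [hc]
  have h6 : ⌊y⌋₊ ≤ ⌊x + 1 / 2⌋₊ := Nat.floor_mono hy1
  have h7 : ⌊x + 1 / 2⌋₊ ≤ ⌊y⌋₊ + 1 := by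
    have h8 : ⌊x + 1 / 2⌋₊ < ⌊y⌋₊ + 2 := by
      rw [Nat.floor_lt (by positivity)]
      have := Nat.lt_floor_add_one y
      push_cast
      linarith
    omega
  omega

lemma WW_dil {c r u : ℝ} (hc : 0 < c) (hc1 : c ≤ 1 / 10) (hr : 1 ≤ r) (hu : 0 ≤ u) :
    WW c (cell (r * u)) ≤ 300 * r ^ 2 * WW c (cell u) := by
  have hr0 : 0 < r := by linarith
  obtain ⟨h1, h2⟩ := cell_bounds hu
  obtain ⟨h3, h4⟩ := cell_bounds (mul_nonneg hr0.le hu)
  obtain ⟨x, hx⟩ : ∃ x : ℝ, x = 2 / Real.pi * u := ⟨_, rfl⟩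
  have hx0 : 0 ≤ x := by rw [hx]; positivity
  have e : 2 / Real.pi * (r * u) = r * x := by rw [hx]; ring
  rw [e] at h3 h4
  rw [← hx] at h1 h2
  have hz0 : (0 : ℝ) ≤ cell u := Nat.cast_nonneg _
  have hy0 : (0 : ℝ) ≤ cell (r * u) := Nat.cast_nonneg _
  have hyz : 1 + (cell (r * u) : ℝ) ≤ 2 * r * (1 + cell u) := by nlinarith
  -- logarithms
  have hc10 : 10 ≤ 1 / c := by
    rw [le_div_iff₀ hc]; linarith
  have hLz : 1 ≤ Real.log ((1 + cell u) / c) := by
    rw [Real.le_log_iff_exp_le (by positivity)]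
    have h5 := Real.exp_one_lt_d9
    have h6 : (1 + (cell u : ℝ)) / c = (1 + cell u) * (1 / c) := by ring
    rw [h6]
    nlinarith
  have hLr : 0 ≤ Real.log (2 * r) := Real.log_nonneg (by linarith)
  have hLy : Real.log ((1 + cell (r * u)) / c) ≤ (1 + Real.log (2 * r)) * Real.log ((1 + cell u) / c) := by
    have h5 : Real.log ((1 + cell (r * u)) / c) ≤ Real.log (2 * r * ((1 + cell u) / c)) := by
      apply Real.log_le_log (by positivity)
      rw [← mul_div_assoc]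
      exact div_le_div_of_nonneg_right hyz hc.le
    rw [Real.log_mul (by positivity) (by positivity)] at h5
    nlinarith
  have hLy0 : 0 ≤ Real.log ((1 + cell (r * u)) / c) := by
    apply Real.log_nonneg
    rw [le_div_iff₀ hc]
    nlinarith
  have hpow : (1 + Real.log (2 * r)) ^ 4 ≤ 150 * r := by
    have h5 := Real.pow_div_factorial_le_exp (1 + Real.log (2 * r)) (by positivity) 4
    rw [Real.exp_add, Real.exp_log (by positivity)] at h5
    have h6 := Real.exp_one_lt_d9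
    have h7 : (Nat.factorial 4 : ℝ) = 24 := by norm_num [Nat.factorial]
    rw [h7, div_le_iff₀ (by norm_num)] at h5
    nlinarith
  unfold WW
  calc (1 + (cell (r * u) : ℝ)) * Real.log ((1 + cell (r * u)) / c) ^ 4
      ≤ (2 * r * (1 + cell u)) * ((1 + Real.log (2 * r)) * Real.log ((1 + cell u) / c)) ^ 4 := by
        apply mul_le_mul hyz (pow_le_pow_left₀ hLy0 hLy 4) (by positivity) (by positivity)
    _ = (2 * r * (1 + Real.log (2 * r)) ^ 4) * ((1 + cell u) * Real.log ((1 + cell u) / c) ^ 4) := by ring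
    _ ≤ (2 * r * (150 * r)) * ((1 + cell u) * Real.log ((1 + cell u) / c) ^ 4) := by
        apply mul_le_mul_of_nonneg_right _ (by positivity)
        exact mul_le_mul_of_nonneg_left hpow (by positivity)
    _ = _ := by ring

/-- **dilation of the cell norm** -/
theorem QQ_dil {c r : ℝ} (hc : 0 < c) (hc1 : c ≤ 1 / 10) (hr : 1 ≤ r) (S : Finset ℕ) (u β : ℕ → ℝ)
    (hu : ∀ n, 0 ≤ u n) :
    QQ (WW c) S (fun n => cell (r * u n)) β ≤ 600 * r ^ 2 * QQ (WW c) S (fun n => cell (u n)) β := by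
  classical
  have hW := WW_pos hc hc1
  obtain ⟨Y, hY⟩ : ∃ Y, Y = S.image (fun n => cell (r * u n)) := ⟨_, rfl⟩
  obtain ⟨Z, hZ⟩ : ∃ Z, Z = S.image (fun n => cell (u n)) := ⟨_, rfl⟩
  let M : ℕ → ℕ → ℝ := fun y z => ∑ n ∈ S.filter (fun n => cell (r * u n) = y ∧ cell (u n) = z), |β n|
  have hM0 : ∀ y z, 0 ≤ M y z := fun y z => sum_nonneg fun _ _ => abs_nonneg _
  -- the sum over a cell of the dilated frequencies
  have hIy : ∀ y, ∑ n ∈ S.filter (fun n => cell (r * u n) = y), |β n| = ∑ z ∈ Z, M y z := by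
    intro y
    rw [← sum_fiberwise_of_maps_to (g := fun n => cell (u n)) (t := Z) (fun i hi => by
      rw [hZ]
      exact mem_image_of_mem _ (mem_filter.1 hi).1)]
    apply sum_congr rfl
    intro z _
    simp only [M]
    rw [filter_filter]
  have hIz : ∀ z, ∑ n ∈ S.filter (fun n => cell (u n) = z), |β n| = ∑ y ∈ Y, M y z := by
    intro z
    rw [← sum_fiberwise_of_maps_to (g := fun n => cell (r * u n)) (t := Y) (fun i hi => by
      rw [hY]
      exact mem_image_of_mem _ (mem_filter.1 hi).1)]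
    apply sum_congr rfl
    intro y _
    simp only [M]
    rw [filter_filter]
    apply sum_congr _ (fun _ _ => rfl)
    ext n
    simp only [mem_filter]
    tauto
  -- at most two cells
  have htwo : ∀ y, (∑ z ∈ Z, M y z) ^ 2 ≤ 2 * ∑ z ∈ Z, M y z ^ 2 := by
    intro y
    obtain ⟨z₀, hz₀⟩ : ∃ z₀, z₀ = ⌊((y : ℝ) - 1 / 2) / r + 1 / 2⌋₊ := ⟨_, rfl⟩
    have hsupp : ∀ z, z ≠ z₀ → z ≠ z₀ + 1 → M y z = 0 := by
      intro z h1 h2
      apply sum_eq_zero
      intro n hn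
      rw [mem_filter] at hn
      exfalso
      have h3 := cell_two hr (hu n)
      rw [hn.2.1, hn.2.2, ← hz₀] at h3
      tauto
    have h1 : ∑ z ∈ Z, M y z = ∑ z ∈ Z.filter (fun z => z = z₀ ∨ z = z₀ + 1), M y z := by
      rw [sum_filter_of_ne]
      intro z _ hz
      by_contra h
      push Not at h
      exact hz (hsupp z h.1 h.2)
    have hcard : ((Z.filter (fun z => z = z₀ ∨ z = z₀ + 1)).card : ℝ) ≤ 2 := by
      have h2 : (Z.filter (fun z => z = z₀ ∨ z = z₀ + 1)) ⊆ {z₀, z₀ + 1} := by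
        intro z hz
        rw [mem_filter] at hz
        simp only [mem_insert, mem_singleton]
        exact hz.2
      have h3 := card_le_card h2
      have h4 : ({z₀, z₀ + 1} : Finset ℕ).card ≤ 2 := card_le_two
      exact_mod_cast h3.trans h4
    rw [h1]
    refine (sq_sum_le_card_mul_sum_sq (s := Z.filter (fun z => z = z₀ ∨ z = z₀ + 1)) (f := M y)).trans ?_
    have h5 : ∑ z ∈ Z.filter (fun z => z = z₀ ∨ z = z₀ + 1), M y z ^ 2 ≤ ∑ z ∈ Z, M y z ^ 2 :=
      sum_le_sum_of_subset_of_nonneg (filter_subset _ _) (fun _ _ _ => sq_nonneg _)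
    have h6 : 0 ≤ ∑ z ∈ Z.filter (fun z => z = z₀ ∨ z = z₀ + 1), M y z ^ 2 := sum_nonneg fun _ _ => sq_nonneg _
    nlinarith
  have hWM : ∀ y z, WW c y * M y z ^ 2 ≤ 300 * r ^ 2 * (WW c z * M y z ^ 2) := by
    intro y z
    by_cases hn : (S.filter (fun n => cell (r * u n) = y ∧ cell (u n) = z)).Nonempty
    · obtain ⟨n, hn⟩ := hn
      rw [mem_filter] at hn
      have h1 := WW_dil hc hc1 hr (hu n)
      rw [hn.2.1, hn.2.2] at h1
      have h2 := mul_le_mul_of_nonneg_right h1 (sq_nonneg (M y z))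
      linarith
    · rw [not_nonempty_iff_eq_empty] at hn
      have h1 : M y z = 0 := by simp only [M]; rw [hn, sum_empty]
      rw [h1]
      simp
  have key : QQ (WW c) S (fun n => cell (r * u n)) β ≤ ∑ y ∈ Y, ∑ z ∈ Z, 600 * r ^ 2 * (WW c z * M y z ^ 2) := by
    unfold QQ
    rw [← hY]
    apply sum_le_sum
    intro y _
    rw [hIy y]
    calc WW c y * (∑ z ∈ Z, M y z) ^ 2 ≤ WW c y * (2 * ∑ z ∈ Z, M y z ^ 2) :=
          mul_le_mul_of_nonneg_left (htwo y) (hW y).le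
      _ = ∑ z ∈ Z, 2 * (WW c y * M y z ^ 2) := by
          rw [← mul_sum, ← mul_sum]; ring
      _ ≤ ∑ z ∈ Z, 600 * r ^ 2 * (WW c z * M y z ^ 2) := by
          apply sum_le_sum
          intro z _
          have := hWM y z
          linarith
  refine key.trans ?_
  rw [sum_comm]
  unfold QQ
  rw [← hZ, mul_sum]
  apply sum_le_sum
  intro z _
  rw [hIz z, ← mul_sum, ← mul_sum]
  apply mul_le_mul_of_nonneg_left _ (by positivity)
  apply mul_le_mul_of_nonneg_left _ (hW z).le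
  have h1 : ∀ y ∈ Y, M y z ^ 2 ≤ M y z * ∑ y' ∈ Y, M y' z := by
    intro y hy
    rw [sq]
    exact mul_le_mul_of_nonneg_left (single_le_sum (f := fun y => M y z) (fun y _ => hM0 y z) hy) (hM0 y z)
  calc ∑ y ∈ Y, M y z ^ 2 ≤ ∑ y ∈ Y, M y z * ∑ y' ∈ Y, M y' z := sum_le_sum h1
    _ = (∑ y ∈ Y, M y z) ^ 2 := by rw [← sum_mul, sq]

end Pool.Agent.Q286.SP
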