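import Mathlib
import Pool.Agent.Q286.SP.Dil
import Pool.Agent.H54R3.Task469O
import Pool.Agent.H853R3.Task469U

/-!
# Prescribed coefficients in the Selberg class, II: the fixed point

`P` is a finite set of primes outside of all blocks, `γ p`, `p ∈ P`, are prescribed.  The nonlinear map of
`Pool.Agent.H469R10.HO` is enlarged by the integers with a prime factor in `P`.
-/

set_option autoImplicit false

open Finset MeasureTheory

namespace Pool.Agent.Q286.SP

open Pool.Agent.H469R10.HO Pool.Agent.H469R10.HO.Hyp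

/-- column of an arbitrary frequency -/
noncomputable def TX (m : ℕ) (w : ℝ) (j : ℕ) : ℝ :=
  - PP (fun t => Real.cos (w * t)) j + PP (DD m (fun y => Real.cos (w * y))) j

lemma TX_abs (m : ℕ) (w : ℝ) (j : ℕ) : |TX m w j| ≤ 4 := by
  have hD : |PP (DD m (fun y => Real.cos (w * y))) j| ≤ 2 * 1 :=
    Pool.Agent.H853R3.U469.PP_abs_le _ 1 (fun x hx _ => Pool.Agent.H853R3.U469.DD_cos_abs m _ x hx) zero_le_one j
  have h1 : |PP (fun t => Real.cos (w * t)) j| ≤ 2 * 1 :=
    Pool.Agent.H853R3.U469.PP_abs_le _ 1 (fun x _ _ => Real.abs_cos_le_one _) zero_le_one j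
  unfold TX
  refine (abs_add_le _ _).trans ?_
  rw [abs_neg]
  linarith

/-- coefficients without the constant term -/
noncomputable def vv (c lam : ℝ) (B : ℕ → Finset ℕ) (b : ℕ → ℝ) (n : ℕ) : ℝ :=
  if n = 0 then 0 else alp c lam B b n

noncomputable def rT (lam : ℝ) (T : Finset ℕ) : ℝ := ((∏ p ∈ T, p : ℕ) : ℝ) ^ (1 / lam)

noncomputable def AT (γ : ℕ → ℝ) (T : Finset ℕ) : ℝ := ∏ p ∈ T, γ p

noncomputable def YT (c lam : ℝ) (m : ℕ) (T : Finset ℕ) (v : ℕ → ℝ) (j : ℕ) : ℝ :=
  ∑' n, v n * TX m (rT lam T * uu c lam n) j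

/-- the additional term -/
noncomputable def Psi (c lam : ℝ) (B : ℕ → Finset ℕ) (m : ℕ) (P : Finset ℕ) (γ : ℕ → ℝ) (b : ℕ → ℝ) (j : ℕ) : ℝ :=
  ∑ T ∈ P.powerset.erase ∅, AT γ T * YT c lam m T (vv c lam B b) j

noncomputable def EP (lam : ℝ) (P : Finset ℕ) (γ : ℕ → ℝ) : ℝ :=
  ∑ T ∈ P.powerset.erase ∅, |AT γ T| * rT lam T

variable {c lam e κ CJ CH : ℝ} {B : ℕ → Finset ℕ} {m : ℕ}

lemma QQ_add {w : ℕ → ℝ} (hw : ∀ y, 0 ≤ w y) (S : Finset ℕ) (cl : ℕ → ℕ) {β β₁ β₂ : ℕ → ℝ}
    (h : ∀ n, |β n| ≤ |β₁ n| + |β₂ n|) : QQ w S cl β ≤ 2 * QQ w S cl β₁ + 2 * QQ w S cl β₂ := by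
  unfold QQ
  rw [mul_sum, mul_sum, ← sum_add_distrib]
  apply sum_le_sum
  intro y _
  have h1 : ∑ i ∈ S.filter (fun i => cl i = y), |β i| ≤ ∑ i ∈ S.filter (fun i => cl i = y), |β₁ i| +
      ∑ i ∈ S.filter (fun i => cl i = y), |β₂ i| := by
    rw [← sum_add_distrib]
    exact sum_le_sum fun i _ => h i
  have h0 : 0 ≤ ∑ i ∈ S.filter (fun i => cl i = y), |β i| := sum_nonneg fun i _ => abs_nonneg _
  have h2 := pow_le_pow_left₀ h0 h1 2
  have h3 := mul_le_mul_of_nonneg_left h2 (hw y)
  refine h3.trans ?_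
  have h4 := mul_nonneg (hw y) (sq_nonneg (∑ i ∈ S.filter (fun i => cl i = y), |β₁ i| -
    ∑ i ∈ S.filter (fun i => cl i = y), |β₂ i|))
  nlinarith

section

variable (h : Hyp c lam e κ CJ CH B m)
include h

lemma TX_sum (S : Finset ℕ) (w β : ℕ → ℝ) (hw : ∀ n, 0 ≤ w n) (J : ℕ) :
    ∑ j ∈ range J, WW c j * (∑ n ∈ S, β n * TX m (w n) j) ^ 2 ≤
      CJ * (720 + 2 * κ) * QQ (WW c) S (fun n => cell (w n)) β := by
  have hm := h.hm
  have hM := h.hM
  have hκ := h.hκ
  refine h.hJ (fun n => cell (w n)) (fun n j => TX m (w n) j) (720 + 2 * κ) (by positivity) ?_ ?_ S β J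
  · intro S β J
    have hnear1 : ∀ i ∈ S, |w i - xx (cell (w i))| ≤ 1 := fun i _ => cell_near (hw i)
    have e1 : ∀ j, ∑ n ∈ S, β n * TX m (w n) j =
        - ∑ n ∈ S, β n * PP (fun t => Real.cos (w n * t)) j + PP (DD m (fun y => ∑ i ∈ S, β i * Real.cos (w i * y))) j := by
      intro j
      rw [← PP_DD_sum hm, ← sum_neg_distrib, ← sum_add_distrib]
      apply sum_congr rfl
      intro n _
      unfold TX
      ring
    have hn1 := QQ_nonneg (w := fun _ => 1) (fun _ => zero_le_one) S (fun n => cell (w n)) β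
    have hMS := hM S (fun n => cell (w n)) w β hnear1
    have c1 := colP_one S (fun n => cell (w n)) w β hnear1 (range J)
    have hQ : ∑ y ∈ S.image (fun n => cell (w n)), (∑ n ∈ S.filter (fun n => cell (w n) = y), |β n|) ^ 2 =
        QQ (fun _ => 1) S (fun n => cell (w n)) β := by
      unfold QQ
      simp
    rw [hQ]
    simp_rw [e1]
    calc ∑ j ∈ range J, (- ∑ n ∈ S, β n * PP (fun t => Real.cos (w n * t)) j +
        PP (DD m (fun y => ∑ i ∈ S, β i * Real.cos (w i * y))) j) ^ 2
          ≤ ∑ j ∈ range J, (2 * (∑ n ∈ S, β n * PP (fun t => Real.cos (w n * t)) j) ^ 2 +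
            2 * (PP (DD m (fun y => ∑ i ∈ S, β i * Real.cos (w i * y))) j) ^ 2) := by
            apply sum_le_sum; intro j _
            nlinarith [sq_nonneg ((∑ n ∈ S, β n * PP (fun t => Real.cos (w n * t)) j) +
              PP (DD m (fun y => ∑ i ∈ S, β i * Real.cos (w i * y))) j)]
        _ ≤ 2 * (60 * QQ (fun _ => 1) S (fun n => cell (w n)) β) + 2 * (κ * QQ (fun _ => 1) S (fun n => cell (w n)) β) := by
            rw [sum_add_distrib, ← mul_sum, ← mul_sum]
            have := hMS.1 J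
            linarith
        _ ≤ _ := by nlinarith
  · intro S β J
    have hnear1 : ∀ i ∈ S, |w i - xx (cell (w i))| ≤ 1 := fun i _ => cell_near (hw i)
    have e1 : ∀ j, ∑ n ∈ S, β n * TX m (w n) j =
        - ∑ n ∈ S, β n * PP (fun t => Real.cos (w n * t)) j + PP (DD m (fun y => ∑ i ∈ S, β i * Real.cos (w i * y))) j := by
      intro j
      rw [← PP_DD_sum hm, ← sum_neg_distrib, ← sum_add_distrib]
      apply sum_congr rfl
      intro n _
      unfold TX
      ring
    have hMS := hM S (fun n => cell (w n)) w β hnear1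
    have c2 := colP_two S (fun n => cell (w n)) w β hnear1 (range J)
    have hQ : ∑ y ∈ S.image (fun n => cell (w n)), (1 + (y : ℝ)) ^ 2 * (∑ n ∈ S.filter (fun n => cell (w n) = y), |β n|) ^ 2 =
        QQ (fun y => (1 + (y : ℝ)) ^ 2) S (fun n => cell (w n)) β := by
      unfold QQ
      rfl
    rw [hQ]
    simp_rw [e1]
    calc ∑ j ∈ range J, (1 + (j : ℝ)) ^ 2 * (- ∑ n ∈ S, β n * PP (fun t => Real.cos (w n * t)) j +
        PP (DD m (fun y => ∑ i ∈ S, β i * Real.cos (w i * y))) j) ^ 2
          ≤ ∑ j ∈ range J, (2 * ((1 + (j : ℝ)) ^ 2 * (∑ n ∈ S, β n * PP (fun t => Real.cos (w n * t)) j) ^ 2) +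
            2 * ((1 + (j : ℝ)) ^ 2 * (PP (DD m (fun y => ∑ i ∈ S, β i * Real.cos (w i * y))) j) ^ 2)) := by
            apply sum_le_sum; intro j _
            have h0 : 0 ≤ (1 + (j : ℝ)) ^ 2 := by positivity
            have h1 := mul_nonneg h0 (sq_nonneg ((∑ n ∈ S, β n * PP (fun t => Real.cos (w n * t)) j) +
              PP (DD m (fun y => ∑ i ∈ S, β i * Real.cos (w i * y))) j))
            nlinarith
        _ ≤ 2 * (360 * QQ (fun y => (1 + (y : ℝ)) ^ 2) S (fun n => cell (w n)) β) +
            2 * (κ * QQ (fun y => (1 + (y : ℝ)) ^ 2) S (fun n => cell (w n)) β) := by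
            rw [sum_add_distrib, ← mul_sum, ← mul_sum]
            have := hMS.2 J
            linarith
        _ = (720 + 2 * κ) * QQ (fun y => (1 + (y : ℝ)) ^ 2) S (fun n => cell (w n)) β := by ring

lemma YT_bound (T : Finset ℕ) (hT : 1 ≤ rT lam T) {v : ℕ → ℝ} (hv : Summable fun n => |v n|) {q : ℝ}
    (hq : ∀ S : Finset ℕ, QQ (WW c) S (jj c lam) v ≤ q) (J : ℕ) :
    ∑ j ∈ range J, WW c j * (YT c lam m T v j) ^ 2 ≤ 600 * (CJ * (720 + 2 * κ)) * rT lam T ^ 2 * q := by
  have hCJ := h.hCJ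
  have hκ := h.hκ
  have hsum : ∀ j, HasSum (fun n => v n * TX m (rT lam T * uu c lam n) j) (YT c lam m T v j) := by
    intro j
    apply Summable.hasSum
    refine Summable.of_norm_bounded (hv.mul_right 4) fun n => ?_
    rw [Real.norm_eq_abs, abs_mul]
    exact mul_le_mul_of_nonneg_left (TX_abs _ _ _) (abs_nonneg _)
  have ht : Filter.Tendsto (fun S : Finset ℕ => ∑ j ∈ range J, WW c j * (∑ n ∈ S, v n * TX m (rT lam T * uu c lam n) j) ^ 2)
      Filter.atTop (nhds (∑ j ∈ range J, WW c j * (YT c lam m T v j) ^ 2)) :=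
    tendsto_finsetSum _ fun j _ => ((hsum j).pow 2).const_mul _
  refine le_of_tendsto' ht fun S => ?_
  have hr0 : 0 ≤ rT lam T := by linarith
  have h1 := TX_sum h S (fun n => rT lam T * uu c lam n) v (fun n => mul_nonneg hr0 (uu_nonneg h.hc.le n)) J
  have h2 := QQ_dil h.hc h.hc1 hT S (uu c lam) v (fun n => uu_nonneg h.hc.le n)
  have h3 : QQ (WW c) S (fun n => cell (uu c lam n)) v ≤ q := hq S
  calc _ ≤ CJ * (720 + 2 * κ) * QQ (WW c) S (fun n => cell (rT lam T * uu c lam n)) v := h1
    _ ≤ CJ * (720 + 2 * κ) * (600 * rT lam T ^ 2 * q) := by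
        apply mul_le_mul_of_nonneg_left _ (by positivity)
        exact h2.trans (mul_le_mul_of_nonneg_left h3 (by positivity))
    _ = _ := by ring

omit h in
/-- combination of the `YT` -/
lemma comb_bound (hc : 0 < c) (hc1 : c ≤ 1 / 10) (P : Finset ℕ) (γ : ℕ → ℝ) (hr : ∀ T ∈ P.powerset.erase ∅, 0 < rT lam T)
    (y : Finset ℕ → ℕ → ℝ) {K : ℝ} (J : ℕ)
    (hy : ∀ T ∈ P.powerset.erase ∅, ∑ j ∈ range J, WW c j * (y T j) ^ 2 ≤ K * rT lam T ^ 2) :
    ∑ j ∈ range J, WW c j * (∑ T ∈ P.powerset.erase ∅, AT γ T * y T j) ^ 2 ≤ K * EP lam P γ ^ 2 := by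
  have hW := WW_pos hc hc1
  have h1 : ∀ j, (∑ T ∈ P.powerset.erase ∅, AT γ T * y T j) ^ 2 ≤
      EP lam P γ * ∑ T ∈ P.powerset.erase ∅, |AT γ T| / rT lam T * (y T j) ^ 2 := by
    intro j
    refine sum_sq_le_sum_mul_sum_of_sq_le_mul _ (fun T hT => ?_) (fun T hT => ?_) (fun T hT => ?_)
    · have := (hr T hT).le
      positivity
    · have := (hr T hT).le
      positivity
    · have := (hr T hT).ne'
      apply le_of_eq
      rw [mul_pow, ← sq_abs (AT γ T)]
      field_simp
  have hE : 0 ≤ EP lam P γ := sum_nonneg fun T hT => by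
    have := (hr T hT).le
    positivity
  calc ∑ j ∈ range J, WW c j * (∑ T ∈ P.powerset.erase ∅, AT γ T * y T j) ^ 2
      ≤ ∑ j ∈ range J, WW c j * (EP lam P γ * ∑ T ∈ P.powerset.erase ∅, |AT γ T| / rT lam T * (y T j) ^ 2) :=
        sum_le_sum fun j _ => mul_le_mul_of_nonneg_left (h1 j) (hW j).le
    _ = EP lam P γ * ∑ T ∈ P.powerset.erase ∅, |AT γ T| / rT lam T * ∑ j ∈ range J, WW c j * (y T j) ^ 2 := by
        rw [mul_sum]
        simp_rw [mul_sum]
        rw [sum_comm]
        apply sum_congr rfl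
        intro T _
        apply sum_congr rfl
        intro j _
        ring
    _ ≤ EP lam P γ * ∑ T ∈ P.powerset.erase ∅, |AT γ T| / rT lam T * (K * rT lam T ^ 2) := by
        apply mul_le_mul_of_nonneg_left _ hE
        apply sum_le_sum
        intro T hT
        have := (hr T hT).le
        exact mul_le_mul_of_nonneg_left (hy T hT) (by positivity)
    _ = K * EP lam P γ ^ 2 := by
        have : ∑ T ∈ P.powerset.erase ∅, |AT γ T| / rT lam T * (K * rT lam T ^ 2) = K * EP lam P γ := by
          unfold EP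
          rw [mul_sum]
          apply sum_congr rfl
          intro T hT
          have := (hr T hT).ne'
          field_simp
        rw [this]
        ring

lemma diff_le (b b' : ℕ → ℝ) (n : ℕ) : |vv c lam B b n - vv c lam B b' n| ≤
    |gg c lam B b b' n| + |hh c lam B b b' n| := by
  by_cases h0 : n = 0
  · subst h0
    unfold vv
    simp only [if_true, sub_self, abs_zero]
    positivity
  have e1 : vv c lam B b n - vv c lam B b' n = alp c lam B b n - alp c lam B b' n := by
    unfold vv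
    rw [if_neg h0, if_neg h0]
  rw [e1]
  by_cases h1 : n = 1
  · subst h1
    have e2 : ∀ b : ℕ → ℝ, alp c lam B b 1 = 1 := fun b => by unfold alp; simp
    rw [e2, e2, sub_self, abs_zero]
    positivity
  by_cases hg : n ∈ B (jj c lam n)
  · have : gg c lam B b b' n = alp c lam B b n - alp c lam B b' n := by
      unfold gg; rw [if_pos (Or.inr hg)]
    rw [this]
    exact le_add_of_nonneg_right (abs_nonneg _)
  by_cases hp : n.Prime
  · have e2 : ∀ b : ℕ → ℝ, alp c lam B b n = 0 := fun b => by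
      rw [alp_prime b hp]; unfold bet; rw [if_neg hg]
    rw [e2, e2, sub_self, abs_zero]
    positivity
  by_cases hs : Squarefree n ∧ 2 ≤ n.primeFactors.card
  · have : hh c lam B b b' n = alp c lam B b n - alp c lam B b' n := by
      unfold hh; rw [if_pos ⟨by tauto, hs⟩]
    rw [this]
    exact le_add_of_nonneg_left (abs_nonneg _)
  · have e2 : ∀ b : ℕ → ℝ, alp c lam B b n = 0 := fun b =>
      Pool.Agent.H54R3.T469O.alp_eq_zero (by tauto) hs h1
    rw [e2, e2, sub_self, abs_zero]
    positivity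

lemma QQ_diff {b b' : ℕ → ℝ} {ρ D : ℝ} (hρ0 : 0 < ρ) (hD0 : 0 < D) (hρ : 9 * ρ ^ 2 ≤ 1)
    (hb : ∀ J : ℕ, ∑ j ∈ range J, WW c j * b j ^ 2 ≤ ρ ^ 2) (hb' : ∀ J : ℕ, ∑ j ∈ range J, WW c j * b' j ^ 2 ≤ ρ ^ 2)
    (hD : ∀ J : ℕ, ∑ j ∈ range J, WW c j * (b j - b' j) ^ 2 ≤ D ^ 2) (S : Finset ℕ) :
    QQ (WW c) S (jj c lam) (fun n => vv c lam B b n - vv c lam B b' n) ≤ (2 + 2 * (CH * 81 * ρ ^ 2)) * D ^ 2 := by
  have hW := WW_pos h.hc h.hc1
  have hτD : ρ / D * D = ρ := by field_simp
  have hh1 := h.QQ_hh (τ := ρ / D) (by positivity) hD0.le hτD.le hρ hb hb' hD S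
  have hh2 : QQ (WW c) S (jj c lam) (hh c lam B b b') ≤ CH * 81 * ρ ^ 2 * D ^ 2 := by
    have e1 : CH * (9 * ρ ^ 2) ^ 2 = (ρ / D) ^ 2 * (CH * 81 * ρ ^ 2 * D ^ 2) := by
      field_simp
      ring
    rw [e1] at hh1
    exact le_of_mul_le_mul_left hh1 (by positivity)
  have g1 := h.QQ_gg hD S
  have h3 := QQ_add (fun y => (hW y).le) S (jj c lam) (β := fun n => vv c lam B b n - vv c lam B b' n)
    (β₁ := gg c lam B b b') (β₂ := hh c lam B b b') (diff_le h b b')
  nlinarith

lemma summable_vv {b : ℕ → ℝ} (hs : Summable fun n => |alp c lam B b n|) : Summable fun n => |vv c lam B b n| := by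
  refine Summable.of_nonneg_of_le (fun _ => abs_nonneg _) (fun n => ?_) hs
  unfold vv
  split_ifs
  · rw [abs_zero]; exact abs_nonneg _
  · exact le_rfl

/-- **Existence of the fixed point** with prescribed primes -/
theorem fixedP (hQ : TaskQ) {ρ : ℝ} (hρ0 : 0 < ρ) (hρ : 9 * ρ ^ 2 ≤ 1)
    (hK : 2 * (CJ * (800 * e ^ 2 + 2 * κ)) + 2 * (CJ * (720 + 2 * κ)) * (CH * 81 * ρ ^ 2) ≤ 1 / 4)
    (P : Finset ℕ) (γ : ℕ → ℝ) (hr : ∀ T ∈ P.powerset.erase ∅, 1 ≤ rT lam T)
    (hE1 : 600 * (CJ * (720 + 2 * κ)) * WW c 0 * EP lam P γ ^ 2 ≤ (ρ / 8) ^ 2)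
    (hE2 : 600 * (CJ * (720 + 2 * κ)) * (2 + 2 * (CH * 81 * ρ ^ 2)) * EP lam P γ ^ 2 ≤ 1 / 16)
    (s : ℕ → ℝ) (hs : ∀ J : ℕ, ∑ j ∈ range J, WW c j * s j ^ 2 ≤ (ρ / 8) ^ 2) :
    ∃ b : ℕ → ℝ, (∀ J : ℕ, ∑ j ∈ range J, WW c j * b j ^ 2 ≤ ρ ^ 2) ∧
      (Summable fun n => |alp c lam B b n|) ∧
      ∀ j, b j = s j + ∑' n, alp c lam B b n * TT c lam m n j + Psi c lam B m P γ b j := by
  have hW := WW_pos h.hc h.hc1
  have hr0 : ∀ T ∈ P.powerset.erase ∅, 0 < rT lam T := fun T hT => by linarith [hr T hT]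
  suffices key : ∃ b : ℕ → ℝ, (∀ J : ℕ, ∑ j ∈ range J, WW c j * b j ^ 2 ≤ ρ ^ 2) ∧
      ∀ j, b j = s j + ∑' n, alp c lam B b n * TT c lam m n j + Psi c lam B m P γ b j by
    obtain ⟨b, hb1, hb2⟩ := key
    exact ⟨b, hb1, h.summable_alp hρ0 hρ hb1, hb2⟩
  refine hQ (WW c) hW (fun b j => s j + ∑' n, alp c lam B b n * TT c lam m n j + Psi c lam B m P γ b j) ρ (3 / 4) hρ0
    (by norm_num) (by norm_num) ?_ ?_
  · intro J
    have e1 : ∀ j, ∑' n, alp c lam B (fun _ => 0) n * TT c lam m n j = 0 := by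
      intro j
      have : ∀ n, alp c lam B (fun _ => 0) n * TT c lam m n j = 0 := by
        intro n
        rw [alp_zero]
        split_ifs with h1
        · subst h1
          unfold TT
          simp
          intro hp1
          exact absurd hp1 Nat.not_prime_one
        · simp
      simp_rw [this]
      exact tsum_zero
    have hz : ∀ J : ℕ, ∑ j ∈ range J, WW c j * (fun _ : ℕ => (0:ℝ)) j ^ 2 ≤ ρ ^ 2 := by
      intro J; simp; positivity
    have hs0 := summable_vv h (h.summable_alp hρ0 hρ hz)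
    have hq0 : ∀ S : Finset ℕ, QQ (WW c) S (jj c lam) (vv c lam B (fun _ => 0)) ≤ WW c 0 := by
      intro S
      have hv : ∀ n, vv c lam B (fun _ => 0) n = if n = 1 then 1 else 0 := by
        intro n
        unfold vv
        rw [alp_zero]
        split_ifs with h1 h2
        · omega
        · rfl
        · rfl
        · rfl
      have hj1 : jj c lam 1 = 0 := by
        unfold jj cell
        rw [Pool.Agent.H54R3.T469O.uu_one]
        rw [Nat.floor_eq_zero]
        have := Real.pi_gt_three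
        have h5 : 2 / Real.pi * c ≤ 1 * c := by
          apply mul_le_mul_of_nonneg_right _ h.hc.le
          rw [div_le_one (by linarith)]
          linarith
        have := h.hc1
        linarith
      unfold QQ
      have hin : ∀ y, ∑ n ∈ S.filter (fun n => jj c lam n = y), |vv c lam B (fun _ => 0) n| ≤ if y = 0 then 1 else 0 := by
        intro y
        calc ∑ n ∈ S.filter (fun n => jj c lam n = y), |vv c lam B (fun _ => 0) n|
            = ∑ n ∈ S.filter (fun n => jj c lam n = y), (if n = 1 then 1 else 0) := by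
              apply sum_congr rfl
              intro n _
              rw [hv]
              split_ifs <;> simp
          _ ≤ _ := by
              rw [sum_ite_eq']
              split_ifs with h1 h2
              · exact le_rfl
              · rw [mem_filter, hj1] at h1
                omega
              · norm_num
              · exact le_rfl
      calc ∑ y ∈ S.image (jj c lam), WW c y * (∑ n ∈ S.filter (fun n => jj c lam n = y), |vv c lam B (fun _ => 0) n|) ^ 2
          ≤ ∑ y ∈ S.image (jj c lam), (if y = 0 then WW c 0 else 0) := by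
            apply sum_le_sum
            intro y _
            have h1 := pow_le_pow_left₀ (sum_nonneg fun i _ => abs_nonneg _) (hin y) 2
            have h2 := mul_le_mul_of_nonneg_left h1 (hW y).le
            refine h2.trans ?_
            split_ifs with h3
            · subst h3; simp
            · simp
        _ ≤ WW c 0 := by
            rw [sum_ite_eq']
            split_ifs
            · exact le_rfl
            · exact (hW 0).le
    have hPsi : ∑ j ∈ range J, WW c j * (Psi c lam B m P γ (fun _ => 0) j) ^ 2 ≤ (ρ / 8) ^ 2 := by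
      have h1 := comb_bound h.hc h.hc1 P γ hr0 (fun T => YT c lam m T (vv c lam B (fun _ => 0)))
        (K := 600 * (CJ * (720 + 2 * κ)) * WW c 0) J (fun T hT => by
          refine (YT_bound h T (hr T hT) hs0 hq0 J).trans (le_of_eq ?_)
          ring)
      exact h1.trans hE1
    simp_rw [e1, add_zero]
    calc ∑ j ∈ range J, WW c j * (s j + Psi c lam B m P γ (fun _ => 0) j) ^ 2
        ≤ ∑ j ∈ range J, (2 * (WW c j * s j ^ 2) + 2 * (WW c j * (Psi c lam B m P γ (fun _ => 0) j) ^ 2)) := by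
          apply sum_le_sum
          intro j _
          have := mul_nonneg (hW j).le (sq_nonneg (s j - Psi c lam B m P γ (fun _ => 0) j))
          nlinarith
      _ ≤ 2 * (ρ / 8) ^ 2 + 2 * (ρ / 8) ^ 2 := by
          rw [sum_add_distrib, ← mul_sum, ← mul_sum]
          have := hs J
          linarith
      _ = ((1 - 3 / 4) * ρ) ^ 2 := by ring
  · intro b b' hb hb' D hD0 hD J
    have hsb := h.summable_alp hρ0 hρ hb
    have hsb' := h.summable_alp hρ0 hρ hb'
    rcases hD0.eq_or_lt with hD00 | hDpos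
    · have hbb : b = b' := by
        funext j
        have h1 := hD (j + 1)
        rw [← hD00] at h1
        have h2 : WW c j * (b j - b' j) ^ 2 ≤ ∑ i ∈ range (j + 1), WW c i * (b i - b' i) ^ 2 :=
          single_le_sum (f := fun i => WW c i * (b i - b' i) ^ 2) (fun i _ => mul_nonneg (hW i).le (sq_nonneg _))
            (mem_range.2 (Nat.lt_succ_self j))
        have h3 : (b j - b' j) ^ 2 ≤ 0 := by
          have := hW j
          nlinarith
        have h4 : b j - b' j = 0 := by nlinarith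
        linarith
      subst hbb
      simp
      positivity
    -- the old part
    have e1 : ∀ j, ∑' n, alp c lam B b n * TT c lam m n j - ∑' n, alp c lam B b' n * TT c lam m n j =
        ∑' n, (alp c lam B b n - alp c lam B b' n) * TT c lam m n j := by
      intro j
      rw [← (h.summable_term hsb j).tsum_sub (h.summable_term hsb' j)]
      exact tsum_congr fun n => by ring
    have hsum : ∀ j, HasSum (fun n => (alp c lam B b n - alp c lam B b' n) * TT c lam m n j)
        (∑' n, (alp c lam B b n - alp c lam B b' n) * TT c lam m n j) := by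
      intro j
      apply Summable.hasSum
      have := (h.summable_term hsb j).sub (h.summable_term hsb' j)
      refine this.congr fun n => by ring
    have ht : Filter.Tendsto (fun S : Finset ℕ => ∑ j ∈ range J, WW c j * (∑ n ∈ S, (alp c lam B b n - alp c lam B b' n) * TT c lam m n j) ^ 2)
        Filter.atTop (nhds (∑ j ∈ range J, WW c j * (∑' n, (alp c lam B b n - alp c lam B b' n) * TT c lam m n j) ^ 2)) :=
      tendsto_finsetSum _ fun j _ => ((hsum j).pow 2).const_mul _
    have hold : ∑ j ∈ range J, WW c j * (∑' n, (alp c lam B b n - alp c lam B b' n) * TT c lam m n j) ^ 2 ≤ 1 / 4 * D ^ 2 := by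
      refine le_of_tendsto' ht fun S => ?_
      refine (h.fin_lip hρ0 hD0 hρ hb hb' hD S J).trans ?_
      exact mul_le_mul_of_nonneg_right hK (sq_nonneg _)
    -- the new part
    have hvs := summable_vv h hsb
    have hvs' := summable_vv h hsb'
    have hvd : Summable fun n => |vv c lam B b n - vv c lam B b' n| := by
      refine Summable.of_nonneg_of_le (fun _ => abs_nonneg _) (fun n => ?_) (hvs.add hvs')
      have := abs_sub (vv c lam B b n) (vv c lam B b' n)
      exact this
    have e2 : ∀ j, Psi c lam B m P γ b j - Psi c lam B m P γ b' j =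
        ∑ T ∈ P.powerset.erase ∅, AT γ T * YT c lam m T (fun n => vv c lam B b n - vv c lam B b' n) j := by
      intro j
      unfold Psi
      rw [← sum_sub_distrib]
      apply sum_congr rfl
      intro T _
      rw [← mul_sub]
      congr 1
      unfold YT
      have g : ∀ v : ℕ → ℝ, (Summable fun n => |v n|) → Summable fun n => v n * TX m (rT lam T * uu c lam n) j := by
        intro v hv
        refine Summable.of_norm_bounded (hv.mul_right 4) fun n => ?_
        rw [Real.norm_eq_abs, abs_mul]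
        exact mul_le_mul_of_nonneg_left (TX_abs _ _ _) (abs_nonneg _)
      rw [← (g _ hvs).tsum_sub (g _ hvs')]
      exact tsum_congr fun n => by ring
    have hnew : ∑ j ∈ range J, WW c j * (Psi c lam B m P γ b j - Psi c lam B m P γ b' j) ^ 2 ≤ 1 / 16 * D ^ 2 := by
      simp_rw [e2]
      have h1 := comb_bound h.hc h.hc1 P γ hr0 (fun T => YT c lam m T (fun n => vv c lam B b n - vv c lam B b' n))
        (K := 600 * (CJ * (720 + 2 * κ)) * ((2 + 2 * (CH * 81 * ρ ^ 2)) * D ^ 2)) J (fun T hT => by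
          refine (YT_bound h T (hr T hT) hvd (fun S => QQ_diff h hρ0 hDpos hρ hb hb' hD S) J).trans (le_of_eq ?_)
          ring)
      refine h1.trans ?_
      have h2 := mul_le_mul_of_nonneg_right hE2 (sq_nonneg D)
      calc _ = 600 * (CJ * (720 + 2 * κ)) * (2 + 2 * (CH * 81 * ρ ^ 2)) * EP lam P γ ^ 2 * D ^ 2 := by ring
        _ ≤ _ := h2
    have e3 : ∀ j, (s j + ∑' n, alp c lam B b n * TT c lam m n j + Psi c lam B m P γ b j) -
        (s j + ∑' n, alp c lam B b' n * TT c lam m n j + Psi c lam B m P γ b' j) =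
        (∑' n, (alp c lam B b n - alp c lam B b' n) * TT c lam m n j) +
          (Psi c lam B m P γ b j - Psi c lam B m P γ b' j) := by
      intro j
      rw [← e1]
      ring
    simp_rw [e3]
    calc ∑ j ∈ range J, WW c j * ((∑' n, (alp c lam B b n - alp c lam B b' n) * TT c lam m n j) +
          (Psi c lam B m P γ b j - Psi c lam B m P γ b' j)) ^ 2
        ≤ ∑ j ∈ range J, (3 / 2 * (WW c j * (∑' n, (alp c lam B b n - alp c lam B b' n) * TT c lam m n j) ^ 2) +
          3 * (WW c j * (Psi c lam B m P γ b j - Psi c lam B m P γ b' j) ^ 2)) := by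
          apply sum_le_sum
          intro j _
          have := mul_nonneg (hW j).le (sq_nonneg ((∑' n, (alp c lam B b n - alp c lam B b' n) * TT c lam m n j) -
            2 * (Psi c lam B m P γ b j - Psi c lam B m P γ b' j)))
          nlinarith
      _ ≤ 3 / 2 * (1 / 4 * D ^ 2) + 3 * (1 / 16 * D ^ 2) := by
          rw [sum_add_distrib, ← mul_sum, ← mul_sum]
          linarith
      _ = (3 / 4 * D) ^ 2 := by ring

end

end Pool.Agent.Q286.SP
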