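import Mathlib
import Pool.Agent.Q286.SP.Ext

/-!
# Prescribed coefficients in the Selberg class, III: the multiplicative structure
-/

set_option autoImplicit false

open Finset

namespace Pool.Agent.Q286.SP

open Pool.Agent.H469R10.HO Pool.Agent.H469R10.HO.Hyp

/-- prime coefficients with prescribed values on `P` -/
noncomputable def betP (c lam : ℝ) (B : ℕ → Finset ℕ) (b : ℕ → ℝ) (P : Finset ℕ) (γ : ℕ → ℝ) (p : ℕ) : ℝ :=
  if p ∈ P then γ p else bet c lam B b p

/-- coefficients (without the constant term) -/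
noncomputable def alpP (c lam : ℝ) (B : ℕ → Finset ℕ) (b : ℕ → ℝ) (P : Finset ℕ) (γ : ℕ → ℝ) (n : ℕ) : ℝ :=
  if n = 0 then 0 else if Squarefree n then ∏ p ∈ n.primeFactors, betP c lam B b P γ p else 0

variable {c lam : ℝ} {B : ℕ → Finset ℕ} {b γ : ℕ → ℝ} {P : Finset ℕ}

lemma bet_P (hPB : ∀ p ∈ P, ∀ j, p ∉ B j) {p : ℕ} (hp : p ∈ P) : bet c lam B b p = 0 := by
  unfold bet
  rw [if_neg (hPB p hp _)]

lemma vv_of_dvd (hP : ∀ p ∈ P, p.Prime) (hPB : ∀ p ∈ P, ∀ j, p ∉ B j) {p k : ℕ} (hp : p ∈ P) (hk : p ∣ k) :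
    vv c lam B b k = 0 := by
  unfold vv
  split_ifs with h0
  · rfl
  · unfold alp
    rw [if_neg h0]
    split_ifs with hs
    · apply prod_eq_zero (i := p)
      · exact Nat.mem_primeFactors.2 ⟨hP p hp, hk, h0⟩
      · exact bet_P hPB hp
    · rfl

lemma conv_ident (hP : ∀ p ∈ P, p.Prime) (hPB : ∀ p ∈ P, ∀ j, p ∉ B j) (n : ℕ) :
    alpP c lam B b P γ n =
      ∑ T ∈ P.powerset, AT γ T * (if (∏ p ∈ T, p) ∣ n then vv c lam B b (n / ∏ p ∈ T, p) else 0) := by
  classical
  have hprime : ∀ T ∈ P.powerset, ∀ p ∈ T, p.Prime := fun T hT p hp => hP p (mem_powerset.1 hT hp)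
  have hpos : ∀ T ∈ P.powerset, 0 < ∏ p ∈ T, p := fun T hT => prod_pos fun p hp => (hprime T hT p hp).pos
  by_cases h0 : n = 0
  · subst h0
    unfold alpP
    rw [if_pos rfl]
    symm
    apply sum_eq_zero
    intro T _
    rw [Nat.zero_div, if_pos (dvd_zero _)]
    unfold vv
    rw [if_pos rfl, mul_zero]
  have hn0 : 0 < n := Nat.pos_of_ne_zero h0
  obtain ⟨T₀, hT₀⟩ : ∃ T₀, T₀ = n.primeFactors.filter (fun p => p ∈ P) := ⟨_, rfl⟩
  have hT₀P : T₀ ∈ P.powerset := by
    rw [mem_powerset, hT₀]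
    intro p hp
    exact (mem_filter.1 hp).2
  have hsub : T₀ ⊆ n.primeFactors := by
    rw [hT₀]
    exact filter_subset _ _
  have hdvd : (∏ p ∈ T₀, p) ∣ n :=
    Finset.prod_primes_dvd n (fun p hp => (hprime T₀ hT₀P p hp).prime) (fun p hp => Nat.dvd_of_mem_primeFactors (hsub hp))
  rw [sum_eq_single T₀]
  rotate_left
  · -- the other terms vanish
    intro T hT hne
    by_cases hd : (∏ p ∈ T, p) ∣ n
    · rw [if_pos hd]
      have hTn : T ⊆ T₀ := by
        intro p hp
        rw [hT₀, mem_filter]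
        exact ⟨Nat.mem_primeFactors.2 ⟨hprime T hT p hp, (dvd_prod_of_mem _ hp).trans hd, h0⟩, mem_powerset.1 hT hp⟩
      obtain ⟨q, hq, hqT⟩ : ∃ q ∈ T₀, q ∉ T := by
        by_contra hcon
        push Not at hcon
        exact hne (Subset.antisymm hTn hcon)
      have hqP : q ∈ P := mem_powerset.1 hT₀P hq
      have hqp := hP q hqP
      obtain ⟨k, hk⟩ := hd
      have hqk : q ∣ k := by
        have h1 : q ∣ (∏ p ∈ T, p) * k := by rw [← hk]; exact Nat.dvd_of_mem_primeFactors (hsub hq)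
        rcases hqp.dvd_mul.1 h1 with h2 | h2
        · exfalso
          obtain ⟨p, hp, hqp2⟩ := (Prime.dvd_finsetProd_iff hqp.prime _).1 h2
          have := (Nat.prime_dvd_prime_iff_eq hqp (hprime T hT p hp)).1 hqp2
          exact hqT (this ▸ hp)
        · exact h2
      have h3 : n / ∏ p ∈ T, p = k := by
        rw [hk, Nat.mul_div_cancel_left _ (hpos T hT)]
      rw [h3, vv_of_dvd hP hPB hqP hqk, mul_zero]
    · rw [if_neg hd, mul_zero]
  · intro h
    exact absurd hT₀P h
  -- the main term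
  rw [if_pos hdvd]
  obtain ⟨k, hk⟩ := hdvd
  have hk1 : n / ∏ p ∈ T₀, p = k := by
    rw [hk, Nat.mul_div_cancel_left _ (hpos T₀ hT₀P)]
  have hk0 : k ≠ 0 := by
    rintro rfl
    rw [mul_zero] at hk
    exact h0 hk
  rw [hk1]
  unfold alpP
  rw [if_neg h0]
  have hN : (∏ p ∈ T₀, p) ≠ 0 := (hpos T₀ hT₀P).ne'
  have hpf : (∏ p ∈ T₀, p).primeFactors = T₀ := Nat.primeFactors_prod (hprime T₀ hT₀P)
  by_cases hs : Squarefree n
  · rw [if_pos hs]
    have hs' := hs
    rw [hk, Nat.squarefree_mul_iff] at hs'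
    obtain ⟨hcop, -, hsk⟩ := hs'
    have hnf : n.primeFactors = T₀ ∪ k.primeFactors := by
      rw [hk, Nat.primeFactors_mul hN hk0, hpf]
    have hdis : Disjoint T₀ k.primeFactors := by
      have := hcop.disjoint_primeFactors
      rwa [hpf] at this
    rw [hnf, prod_union hdis]
    have e1 : ∏ p ∈ T₀, betP c lam B b P γ p = AT γ T₀ := by
      unfold AT
      apply prod_congr rfl
      intro p hp
      unfold betP
      rw [if_pos (mem_powerset.1 hT₀P hp)]
    have e2 : ∏ p ∈ k.primeFactors, betP c lam B b P γ p = vv c lam B b k := by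
      unfold vv alp
      rw [if_neg hk0, if_neg hk0, if_pos hsk]
      apply prod_congr rfl
      intro p hp
      unfold betP
      rw [if_neg]
      intro hpP
      have h4 : p ∈ T₀ := by
        rw [hT₀, mem_filter]
        refine ⟨?_, hpP⟩
        rw [hnf]
        exact mem_union_right _ hp
      exact (disjoint_left.1 hdis) h4 hp
    rw [e1, e2]
  · rw [if_neg hs]
    symm
    by_cases hex : ∃ p ∈ P, p ∣ k
    · obtain ⟨p, hp, hpk⟩ := hex
      rw [vv_of_dvd hP hPB hp hpk, mul_zero]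
    · push Not at hex
      have hsk : ¬ Squarefree k := by
        intro hsk
        apply hs
        rw [hk, Nat.squarefree_mul_iff]
        refine ⟨?_, ?_, hsk⟩
        · apply Nat.Coprime.prod_left
          intro p hp
          exact (Nat.Prime.coprime_iff_not_dvd (hprime T₀ hT₀P p hp)).2 (hex p (mem_powerset.1 hT₀P hp))
        · apply Finset.squarefree_prod_of_pairwise_isCoprime
          · intro p hp q hq hpq
            exact Nat.coprime_iff_isRelPrime.1
              ((Nat.coprime_primes (hprime T₀ hT₀P p hp) (hprime T₀ hT₀P q hq)).2 hpq)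
          · intro p hp
            exact (hprime T₀ hT₀P p hp).prime.squarefree
      unfold vv alp
      rw [if_neg hk0, if_neg hk0, if_neg hsk, mul_zero]

end Pool.Agent.Q286.SP
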