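import Mathlib
import Pool.Agent.Q286.SP.Conv

/-!
# Prescribed coefficients in the Selberg class, IV: the boundary relation
-/

set_option autoImplicit false

open Finset MeasureTheory

namespace Pool.Agent.Q286.SP

open Pool.Agent.H469R10.HO Pool.Agent.H469R10.HO.Hyp
open Pool.Agent.H54R3.T469O (PP_add PP_sub PP_const_mul PP_cos chi_zero chi_one DD_abs PP_hasSum DD_const_mul
  jj_of_near uu_one alp_eq_zero)

variable {c lam : ℝ} {B : ℕ → Finset ℕ} {b γ : ℕ → ℝ} {P : Finset ℕ} {m : ℕ}

lemma shift_hasSum {N : ℕ} (hN : 0 < N) {v : ℕ → ℝ} (hv : Summable fun n => |v n|) {g : ℕ → ℝ} (hg : ∀ n, |g n| ≤ 1) :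
    HasSum (fun n => (if N ∣ n then v (n / N) else 0) * g n) (∑' n, v n * g (N * n)) := by
  have hinj : Function.Injective (fun n : ℕ => N * n) := fun a b hab => Nat.eq_of_mul_eq_mul_left hN hab
  rw [← hinj.hasSum_iff (f := fun n => (if N ∣ n then v (n / N) else 0) * g n)]
  · have e : ((fun n => (if N ∣ n then v (n / N) else 0) * g n) ∘ fun n => N * n) = fun n => v n * g (N * n) := by
      funext n
      simp only [Function.comp]
      rw [if_pos (dvd_mul_right N n), Nat.mul_div_cancel_left _ hN]
    rw [e]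
    apply Summable.hasSum
    refine Summable.of_norm_bounded hv fun n => ?_
    rw [Real.norm_eq_abs, abs_mul]
    calc |v n| * |g (N * n)| ≤ |v n| * 1 := mul_le_mul_of_nonneg_left (hg _) (abs_nonneg _)
      _ = |v n| := mul_one _
  · intro n hn
    rw [if_neg, zero_mul]
    rintro ⟨k, rfl⟩
    exact hn ⟨k, rfl⟩

lemma conv_hasSum (hP : ∀ p ∈ P, p.Prime) (hPB : ∀ p ∈ P, ∀ j, p ∉ B j)
    (hv : Summable fun n => |vv c lam B b n|) {g : ℕ → ℝ} (hg : ∀ n, |g n| ≤ 1) :
    HasSum (fun n => alpP c lam B b P γ n * g n)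
      (∑ T ∈ P.powerset, AT γ T * ∑' n, vv c lam B b n * g ((∏ p ∈ T, p) * n)) := by
  have h1 : ∀ T ∈ P.powerset, HasSum (fun n => AT γ T * ((if (∏ p ∈ T, p) ∣ n then vv c lam B b (n / ∏ p ∈ T, p) else 0) * g n))
      (AT γ T * ∑' n, vv c lam B b n * g ((∏ p ∈ T, p) * n)) := by
    intro T hT
    apply HasSum.mul_left
    exact shift_hasSum (prod_pos fun p hp => (hP p (mem_powerset.1 hT hp)).pos) hv hg
  have h2 := hasSum_sum h1
  have e : (fun n => alpP c lam B b P γ n * g n) = fun n => ∑ T ∈ P.powerset,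
      AT γ T * ((if (∏ p ∈ T, p) ∣ n then vv c lam B b (n / ∏ p ∈ T, p) else 0) * g n) := by
    funext n
    rw [conv_ident hP hPB, sum_mul]
    exact sum_congr rfl fun T _ => by ring
  rw [e]
  exact h2

lemma summable_alpP (hP : ∀ p ∈ P, p.Prime) (hPB : ∀ p ∈ P, ∀ j, p ∉ B j)
    (hv : Summable fun n => |vv c lam B b n|) : Summable fun n => |alpP c lam B b P γ n| := by
  have h1 : ∀ T ∈ P.powerset, Summable (fun n => |AT γ T| * (if (∏ p ∈ T, p) ∣ n then |vv c lam B b (n / ∏ p ∈ T, p)| else 0)) := by
    intro T hT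
    apply Summable.mul_left
    have := (shift_hasSum (prod_pos fun p hp => (hP p (mem_powerset.1 hT hp)).pos) (v := fun n => |vv c lam B b n|)
      (by simpa using hv) (g := fun _ => 1) (by simp)).summable
    simpa using this
  refine Summable.of_nonneg_of_le (fun _ => abs_nonneg _) (fun n => ?_) (summable_sum h1)
  rw [conv_ident hP hPB]
  refine (abs_sum_le_sum_abs _ _).trans (sum_le_sum fun T _ => ?_)
  rw [abs_mul]
  apply mul_le_mul_of_nonneg_left _ (abs_nonneg _)
  split_ifs
  · exact le_rfl
  · simp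

/-- equality of the projections gives the relation -/
lemma rel_of_PP {h : ℝ → ℝ} (hhc : Continuous h) {C : ℝ} (hhB : ∀ x, |h x| ≤ C) (hm1 : 1 ≤ m)
    (hP : ∀ j, PP h j = PP (DD m h) j) {x : ℝ} (hx : 0 < x) : h x = x ^ (2 * m) * h x⁻¹ := by
  have hDhc : Continuous (DD m h) := Pool.Agent.H54R3.T469O.DD_cont hm1 hhc hhB
  have hL := Pool.Agent.H82R3.T469L.taskL (fun x => h x - DD m h x) (hhc.sub hDhc) (fun j => by
    have h1 : PP (fun x => h x - DD m h x) j = 0 := by
      rw [PP_sub hhc hDhc, hP j, sub_self]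
    unfold PP at h1
    have h2 : ww j ≠ 0 := by have := ww_ge j; positivity
    exact (div_eq_zero_iff.mp h1).resolve_right h2)
  have hL' : ∀ x ∈ Set.Icc (0:ℝ) 2, h x = chi x * x ^ (2 * m) * h x⁻¹ := fun x hx => by
    have := hL x hx
    simp only [DD] at this
    linarith
  have hz1 : ∀ x ∈ Set.Icc (3 / 4 : ℝ) 2, h x = 0 := by
    intro x hx
    rw [hL' x ⟨by linarith [hx.1], hx.2⟩, chi_zero hx.1]
    ring
  have hz : ∀ x ∈ Set.Icc (1 / 2 : ℝ) 2, h x = 0 := by
    intro x hx
    rcases le_total (3 / 4) x with h1 | h1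
    · exact hz1 x ⟨h1, hx.2⟩
    · have hx0 : 0 < x := by linarith [hx.1]
      rw [hL' x ⟨by linarith [hx.1], hx.2⟩, hz1 x⁻¹ ?_, mul_zero]
      constructor
      · rw [le_inv_comm₀ (by norm_num) hx0]; linarith
      · rw [inv_le_comm₀ hx0 (by norm_num)]; linarith [hx.1]
  have hinv : ∀ x : ℝ, 0 < x → x ≤ 1 / 2 → h x = x ^ (2 * m) * h x⁻¹ := by
    intro x hx0 hx1
    rw [hL' x ⟨hx0.le, by linarith⟩, chi_one hx1, one_mul]
  rcases le_total x (1 / 2) with h1 | h1
  · exact hinv x hx h1
  rcases le_total x 2 with h2 | h2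
  · rw [hz x ⟨h1, h2⟩, hz x⁻¹ ?_, mul_zero]
    constructor
    · rw [le_inv_comm₀ (by norm_num) hx]; linarith
    · rw [inv_le_comm₀ hx (by norm_num)]; linarith
  · have h3 := hinv x⁻¹ (inv_pos.mpr hx) (by rw [inv_le_comm₀ hx (by norm_num)]; linarith)
    rw [inv_inv] at h3
    rw [h3, ← mul_assoc, ← mul_pow, mul_inv_cancel₀ hx.ne', one_pow, one_mul]

/-- projections of a cosine series -/
lemma series_PP (hm1 : 1 ≤ m) {a w : ℕ → ℝ} (ha : Summable fun n => |a n|) :
    Continuous (fun x => ∑' n, a n * Real.cos (w n * x)) ∧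
    (∀ x, |∑' n, a n * Real.cos (w n * x)| ≤ ∑' n, |a n|) ∧
    ∀ j, HasSum (fun n => a n * TX m (w n) j) (- PP (fun x => ∑' n, a n * Real.cos (w n * x)) j +
      PP (DD m (fun x => ∑' n, a n * Real.cos (w n * x))) j) := by
  obtain ⟨G, hG⟩ : ∃ G : ℝ → ℝ, G = fun x => ∑' n, a n * Real.cos (w n * x) := ⟨_, rfl⟩
  have hGb : ∀ n x, ‖a n * Real.cos (w n * x)‖ ≤ |a n| := by
    intro n x
    rw [Real.norm_eq_abs, abs_mul]
    calc |a n| * |Real.cos (w n * x)| ≤ |a n| * 1 := by
          gcongr
          exact Real.abs_cos_le_one _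
      _ = |a n| := mul_one _
  have hGs : ∀ x, HasSum (fun n => a n * Real.cos (w n * x)) (G x) := fun x => by
    rw [hG]
    exact (Summable.of_norm_bounded ha (fun n => hGb n x)).hasSum
  have hGc : Continuous G := by rw [hG]; exact continuous_tsum (fun n => by fun_prop) ha hGb
  have hGB : ∀ x, |G x| ≤ ∑' n, |a n| := fun x => by
    rw [hG]
    exact tsum_of_norm_bounded ha.hasSum (fun n => hGb n x)
  rw [← hG]
  refine ⟨hGc, fun x => by have := hGB x; rw [hG] at this; exact this, fun j => ?_⟩
  have H1 : HasSum (fun n => a n * PP (fun t => Real.cos (w n * t)) j) (PP G j) := by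
    have h1 := PP_hasSum (F := fun n x => a n * Real.cos (w n * x)) (a := fun n => |a n|)
      (fun n => by fun_prop) (fun n x _ => hGb n x) ha j (f := G) (fun x _ => hGs x)
    simpa only [PP_const_mul] using h1
  have hcosB : ∀ n x, |Real.cos (w n * x)| ≤ 1 := fun n x => Real.abs_cos_le_one _
  have hDc : ∀ n, Continuous (DD m (fun y => Real.cos (w n * y))) := fun n =>
    Pool.Agent.H54R3.T469O.DD_cont hm1 (by fun_prop) (hcosB n)
  have H2 : HasSum (fun n => a n * PP (DD m (fun y => Real.cos (w n * y))) j) (PP (DD m G) j) := by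
    have h1 := PP_hasSum (F := fun n x => a n * DD m (fun y => Real.cos (w n * y)) x)
      (a := fun n => |a n| * 2 ^ (2 * m))
      (fun n => continuous_const.mul (hDc n)) (fun n x hx => by
        rw [abs_mul]
        have h2 := DD_abs (m := m) (hcosB n) x
        have h3 : x ^ (2 * m) ≤ 2 ^ (2 * m) := pow_le_pow_left₀ hx.1 hx.2 _
        have h4 : |DD m (fun y => Real.cos (w n * y)) x| ≤ 2 ^ (2 * m) := by linarith
        gcongr) (ha.mul_right _) j (f := DD m G) (fun x _ => by
        have h2 := (hGs x⁻¹).mul_left (chi x * x ^ (2 * m))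
        have h3 : (fun n => a n * DD m (fun y => Real.cos (w n * y)) x) =
            fun n => chi x * x ^ (2 * m) * (a n * Real.cos (w n * x⁻¹)) := by
          funext n
          unfold DD
          ring
        rw [h3]
        exact h2)
    simpa only [PP_const_mul] using h1
  have h1 := (H1.neg).add H2
  have e : (fun n => a n * TX m (w n) j) = fun n => -(a n * PP (fun t => Real.cos (w n * t)) j) +
      a n * PP (DD m (fun y => Real.cos (w n * y))) j := by
    funext n
    unfold TX
    ring
  rw [e]
  exact h1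

lemma rT_uu {T : Finset ℕ} (n : ℕ) : uu c lam ((∏ p ∈ T, p) * n) = rT lam T * uu c lam n := by
  unfold uu rT
  push_cast
  rw [Real.mul_rpow (by positivity) (by positivity)]
  ring

lemma hasSum_block (hlam : 1 ≤ lam) (hB : ∀ j, ∀ p ∈ B j, 1 ≤ j ∧ p.Prime ∧ |uu c lam p - xx j| ≤ 1 / 2)
    (hne : ∀ j, 1 ≤ j → (B j).Nonempty) (j : ℕ) :
    HasSum (fun n => if n = 0 ∨ n.Prime then (if jj c lam n = j then alp c lam B b n else 0) else 0) (b j) := by
  classical
  rcases Nat.eq_zero_or_pos j with rfl | hj
  · have h1 := hasSum_sum_of_ne_finset_zero (L := SummationFilter.unconditional ℕ) (f := fun n => if n = 0 ∨ n.Prime then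
        (if jj c lam n = 0 then alp c lam B b n else 0) else 0) (s := {0}) (fun n hn => by
      have hn0 : n ≠ 0 := by simpa using hn
      by_cases hp : n.Prime
      · simp only [hn0, hp, false_or, if_true]
        split_ifs with hj
        · rw [Pool.Agent.H54R3.T469O.alp_prime hp]
          unfold bet
          rw [hj]
          rw [if_neg]
          intro hmem
          have := (hB 0 n hmem).1
          omega
        · rfl
      · simp [hn0, hp])
    simp only [sum_singleton, true_or, if_true, Pool.Agent.H54R3.T469O.jj_zero hlam] at h1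
    have h2 : alp c lam B b 0 = b 0 := by unfold alp; rw [if_pos rfl]
    rwa [h2] at h1
  · have h1 := hasSum_sum_of_ne_finset_zero (L := SummationFilter.unconditional ℕ) (f := fun n => if n = 0 ∨ n.Prime then
        (if jj c lam n = j then alp c lam B b n else 0) else 0) (s := B j) (fun n hn => by
      by_cases hn0 : n = 0
      · subst hn0
        simp only [true_or, if_true, Pool.Agent.H54R3.T469O.jj_zero hlam]
        rw [if_neg (by omega)]
      by_cases hp : n.Prime
      · simp only [hn0, hp, false_or, if_true]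
        split_ifs with hj
        · rw [Pool.Agent.H54R3.T469O.alp_prime hp]
          unfold bet
          rw [hj, if_neg hn]
        · rfl
      · simp [hn0, hp])
    have h2 : ∑ n ∈ B j, (if n = 0 ∨ n.Prime then
        (if jj c lam n = j then alp c lam B b n else 0) else 0) = b j := by
      have h3 : ∀ n ∈ B j, (if n = 0 ∨ n.Prime then
        (if jj c lam n = j then alp c lam B b n else 0) else 0) = b j / (B j).card := by
        intro n hn
        obtain ⟨-, hp, hnear⟩ := hB j n hn
        have hjn := jj_of_near hnear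
        rw [if_pos (Or.inr hp), if_pos hjn, Pool.Agent.H54R3.T469O.alp_prime hp]
        unfold bet
        rw [hjn, if_pos hn]
      rw [sum_congr rfl h3, sum_const, nsmul_eq_mul]
      have h4 : ((B j).card : ℝ) ≠ 0 := by
        have := (hne j hj).card_pos
        positivity
      field_simp
    rwa [h2] at h1

/-- **The boundary relation** -/
theorem relP (hlam : 1 ≤ lam) (hm : 2 ≤ m)
    (hB : ∀ j, ∀ p ∈ B j, 1 ≤ j ∧ p.Prime ∧ |uu c lam p - xx j| ≤ 1 / 2) (hne : ∀ j, 1 ≤ j → (B j).Nonempty)
    (hsum : Summable (fun n => |alp c lam B b n|)) (hP : ∀ p ∈ P, p.Prime) (hPB : ∀ p ∈ P, ∀ j, p ∉ B j)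
    (hfix : ∀ j, b j = ss c m j + ∑' n, alp c lam B b n * TT c lam m n j + Psi c lam B m P γ b j)
    (α : ℕ → ℝ) (hα : ∀ n, α n = if n = 0 then b 0 - 1 else alpP c lam B b P γ n) {x : ℝ} (hx : 0 < x) :
    ∑' n, α n * Real.cos (uu c lam n * x) = x ^ (2 * m) * ∑' n, α n * Real.cos (uu c lam n / x) := by
  classical
  have hm1 : 1 ≤ m := by omega
  obtain ⟨a, had⟩ : ∃ a : ℕ → ℝ, a = fun n => if n = 1 then 0 else alp c lam B b n := ⟨_, rfl⟩
  have ha : Summable (fun n => |a n|) := by
    refine Summable.of_nonneg_of_le (fun _ => abs_nonneg _) (fun n => ?_) hsum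
    rw [had]
    simp only
    split_ifs
    · rw [abs_zero]; exact abs_nonneg _
    · exact le_rfl
  have hv : Summable fun n => |vv c lam B b n| := by
    refine Summable.of_nonneg_of_le (fun _ => abs_nonneg _) (fun n => ?_) hsum
    unfold vv
    split_ifs
    · rw [abs_zero]; exact abs_nonneg _
    · exact le_rfl
  obtain ⟨G, hG⟩ : ∃ G : ℝ → ℝ, G = fun x => ∑' n, a n * Real.cos (uu c lam n * x) := ⟨_, rfl⟩
  obtain ⟨GT, hGT⟩ : ∃ GT : Finset ℕ → ℝ → ℝ, GT = fun T x => ∑' n, vv c lam B b n * Real.cos (rT lam T * uu c lam n * x) :=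
    ⟨_, rfl⟩
  obtain ⟨hGc, hGB, hGP⟩ := series_PP hm1 ha (w := uu c lam)
  rw [← hG] at hGc hGP
  have hGB : ∀ x, |G x| ≤ ∑' n, |a n| := fun x => by rw [hG]; exact hGB x
  have hT : ∀ T, Continuous (GT T) ∧ (∀ x, |GT T x| ≤ ∑' n, |vv c lam B b n|) ∧
      ∀ j, YT c lam m T (vv c lam B b) j = - PP (GT T) j + PP (DD m (GT T)) j := by
    intro T
    obtain ⟨h1, h2, h3⟩ := series_PP hm1 hv (w := fun n => rT lam T * uu c lam n)
    have e : GT T = fun x => ∑' n, vv c lam B b n * Real.cos (rT lam T * uu c lam n * x) := by rw [hGT]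
    rw [e]
    refine ⟨h1, h2, fun j => ?_⟩
    unfold YT
    exact (h3 j).tsum_eq
  have hs0c : Continuous (s0 c) := by unfold s0; fun_prop
  have hs0B : ∀ x, |s0 c x| ≤ 2 := by
    intro x
    unfold s0
    rw [abs_le]
    constructor <;> linarith [Real.neg_one_le_cos (c * x), Real.cos_le_one (c * x)]
  obtain ⟨GP, hGPd⟩ : ∃ GP : ℝ → ℝ, GP = fun x => ∑ T ∈ P.powerset.erase ∅, AT γ T * GT T x := ⟨_, rfl⟩
  have hGPc : Continuous GP := by
    rw [hGPd]
    exact continuous_finsetSum _ fun T _ => continuous_const.mul (hT T).1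
  have hGPB : ∀ x, |GP x| ≤ ∑ T ∈ P.powerset.erase ∅, |AT γ T| * ∑' n, |vv c lam B b n| := by
    intro x
    rw [hGPd]
    refine (abs_sum_le_sum_abs _ _).trans (sum_le_sum fun T _ => ?_)
    rw [abs_mul]
    exact mul_le_mul_of_nonneg_left ((hT T).2.1 x) (abs_nonneg _)
  obtain ⟨h, hh⟩ : ∃ h : ℝ → ℝ, h = fun x => s0 c x + G x + GP x := ⟨_, rfl⟩
  have hhc : Continuous h := by rw [hh]; exact (hs0c.add hGc).add hGPc
  have hhB : ∀ x, |h x| ≤ 2 + ∑' n, |a n| + ∑ T ∈ P.powerset.erase ∅, |AT γ T| * ∑' n, |vv c lam B b n| := fun x => by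
    rw [hh]
    exact (abs_add_le _ _).trans (add_le_add ((abs_add_le _ _).trans (add_le_add (hs0B x) (hGB x))) (hGPB x))
  -- the projections
  have hPP : ∀ j, PP h j = PP (DD m h) j := by
    intro j
    have H4 : HasSum (fun n => alp c lam B b n * TT c lam m n j) (- PP G j + PP (DD m G) j + b j) := by
      have h1 := (hGP j).add (hasSum_block (c := c) (b := b) hlam hB hne j)
      have h2 : (fun n => alp c lam B b n * TT c lam m n j) = fun n =>
          a n * TX m (uu c lam n) j +
            (if n = 0 ∨ n.Prime then (if jj c lam n = j then alp c lam B b n else 0) else 0) := by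
        funext n
        by_cases h0 : n = 0 ∨ n.Prime
        · have hn1 : n ≠ 1 := by
            rintro rfl
            rcases h0 with h0 | h0
            · omega
            · exact Nat.not_prime_one h0
          have han : a n = alp c lam B b n := by rw [had]; exact if_neg hn1
          unfold TT TX
          rw [if_pos h0, if_pos h0, han, PP_sub (by fun_prop) (by fun_prop), PP_cos]
          split_ifs <;> ring
        · by_cases h3 : Squarefree n ∧ 2 ≤ n.primeFactors.card
          · have hn1 : n ≠ 1 := by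
              rintro rfl
              simp at h3
            have han : a n = alp c lam B b n := by rw [had]; exact if_neg hn1
            unfold TT TX
            rw [if_neg h0, if_neg h0, if_pos h3, han]
            ring
          · by_cases hn1 : n = 1
            · have han : a n = 0 := by rw [had]; exact if_pos hn1
              unfold TT
              rw [if_neg h0, if_neg h0, if_neg h3, han]
              ring
            · have h4 := alp_eq_zero (c := c) (lam := lam) (B := B) (b := b) h0 h3 hn1
              have han : a n = 0 := by rw [had]; exact (if_neg hn1).trans h4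
              rw [if_neg h0, h4, han]
              ring
      rw [h2]
      exact h1
    have h5 := hfix j
    rw [H4.tsum_eq] at h5
    unfold ss Psi at h5
    have e1 : PP GP j = ∑ T ∈ P.powerset.erase ∅, AT γ T * PP (GT T) j := by
      rw [hGPd]
      exact PP_sum _ (AT γ) GT (fun T _ => (hT T).1) j
    have e2 : PP (DD m GP) j = ∑ T ∈ P.powerset.erase ∅, AT γ T * PP (DD m (GT T)) j := by
      rw [← PP_sum _ (AT γ) (fun T => DD m (GT T))
        (fun T _ => Pool.Agent.H54R3.T469O.DD_cont hm1 (hT T).1 (hT T).2.1) j]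
      congr 1
      funext x
      rw [hGPd]
      unfold DD
      rw [mul_sum]
      exact sum_congr rfl fun T _ => by ring
    have e3 : ∑ T ∈ P.powerset.erase ∅, AT γ T * YT c lam m T (vv c lam B b) j = - PP GP j + PP (DD m GP) j := by
      rw [e1, e2, ← sum_neg_distrib, ← sum_add_distrib]
      apply sum_congr rfl
      intro T _
      rw [(hT T).2.2 j]
      ring
    rw [e3] at h5
    have h6 : PP h j = PP (s0 c) j + PP G j + PP GP j := by
      have c1 : Continuous (fun x => s0 c x + G x) := hs0c.add hGc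
      rw [hh, PP_add c1 hGPc, PP_add hs0c hGc]
    have h7 : PP (DD m h) j = PP (DD m (s0 c)) j + PP (DD m G) j + PP (DD m GP) j := by
      have c1 := Pool.Agent.H54R3.T469O.DD_cont hm1 hs0c hs0B
      have c2 := Pool.Agent.H54R3.T469O.DD_cont hm1 hGc hGB
      have c3 := Pool.Agent.H54R3.T469O.DD_cont hm1 hGPc hGPB
      have c4 : Continuous (fun x => DD m (s0 c) x + DD m G x) := c1.add c2
      rw [← PP_add c1 c2, ← PP_add c4 c3]
      congr 1
      funext x
      rw [hh]
      simp only [DD]
      ring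
    linarith
  have hrel := rel_of_PP hhc hhB hm1 hPP hx
  -- the series
  have hser : ∀ x, ∑' n, α n * Real.cos (uu c lam n * x) = h x := by
    intro x
    have h1 := conv_hasSum (γ := γ) hP hPB hv (g := fun n => Real.cos (uu c lam n * x)) (fun n => Real.abs_cos_le_one _)
    have h2 := h1.add (hasSum_ite_eq 0 (b 0 - 1))
    have e1 : (fun n => α n * Real.cos (uu c lam n * x)) = fun n => alpP c lam B b P γ n * Real.cos (uu c lam n * x) +
        (if n = 0 then b 0 - 1 else 0) := by
      funext n
      rw [hα n]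
      by_cases hn0 : n = 0
      · subst hn0
        rw [if_pos rfl, if_pos rfl, Pool.Agent.H54R3.T469O.uu_zero hlam, zero_mul, Real.cos_zero]
        unfold alpP
        rw [if_pos rfl]
        ring
      · rw [if_neg hn0, if_neg hn0, add_zero]
    rw [e1, h2.tsum_eq]
    have hmem : ∅ ∈ P.powerset := empty_mem_powerset P
    rw [← add_sum_erase _ _ hmem]
    have e2 : ∑ T ∈ P.powerset.erase ∅, AT γ T * ∑' n, vv c lam B b n * Real.cos (uu c lam ((∏ p ∈ T, p) * n) * x) = GP x := by
      rw [hGPd]
      apply sum_congr rfl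
      intro T _
      rw [hGT]
      simp only
      congr 1
      apply tsum_congr
      intro n
      rw [rT_uu]
    rw [e2]
    have e3 : AT γ ∅ * ∑' n, vv c lam B b n * Real.cos (uu c lam ((∏ p ∈ (∅ : Finset ℕ), p) * n) * x) =
        G x - b 0 + Real.cos (c * x) := by
      unfold AT
      rw [prod_empty, one_mul]
      have h3 : HasSum (fun n => a n * Real.cos (uu c lam n * x) +
          ((if n = 0 then -b 0 else 0) + (if n = 1 then Real.cos (c * x) else 0)))
          (G x + (-b 0 + Real.cos (c * x))) := by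
        refine HasSum.add ?_ ((hasSum_ite_eq 0 (-b 0)).add (hasSum_ite_eq 1 (Real.cos (c * x))))
        rw [hG]
        apply Summable.hasSum
        refine Summable.of_norm_bounded ha fun n => ?_
        rw [Real.norm_eq_abs, abs_mul]
        calc |a n| * |Real.cos (uu c lam n * x)| ≤ |a n| * 1 :=
              mul_le_mul_of_nonneg_left (Real.abs_cos_le_one _) (abs_nonneg _)
          _ = |a n| := mul_one _
      have h4 : (fun n => vv c lam B b n * Real.cos (uu c lam ((∏ p ∈ (∅ : Finset ℕ), p) * n) * x)) = fun n =>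
          a n * Real.cos (uu c lam n * x) +
          ((if n = 0 then -b 0 else 0) + (if n = 1 then Real.cos (c * x) else 0)) := by
        funext n
        rw [prod_empty, one_mul, had]
        unfold vv
        by_cases hn0 : n = 0
        · subst hn0
          simp only [if_true, zero_ne_one, if_false]
          have h5 : alp c lam B b 0 = b 0 := by unfold alp; rw [if_pos rfl]
          rw [h5, Pool.Agent.H54R3.T469O.uu_zero hlam, zero_mul]
          simp
        by_cases hn1 : n = 1
        · subst hn1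
          have h5 : alp c lam B b 1 = 1 := by unfold alp; simp
          simp only [one_ne_zero, if_false, if_true]
          rw [h5, uu_one]
          ring
        · simp only [hn0, hn1, if_false]
          ring
      rw [h4, h3.tsum_eq]
      ring
    rw [e3, hh]
    simp only [s0]
    ring
  rw [hser x]
  have h8 : ∀ n, uu c lam n / x = uu c lam n * x⁻¹ := fun n => div_eq_mul_inv _ _
  simp_rw [h8]
  rw [hser x⁻¹]
  exact hrel

end Pool.Agent.Q286.SP
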