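import Mathlib
import Pool.Agent.Q286.SP.Rel
import Pool.Agent.Y532.SC.Core

/-!
# Prescribed coefficients in the Selberg class, V: the core
-/

set_option autoImplicit false

open Finset

namespace Pool.Agent.Q286.SP

open Pool.Agent.H469R10.HO Pool.Agent.H469R10.HO.Hyp

lemma uu_block {c lam : ℝ} {p j : ℕ} (hj : 1 ≤ j) (h : |uu c lam p - xx j| ≤ 1 / 2) : 1 < uu c lam p := by
  have h1 := (abs_le.1 h).1
  have h2 : Real.pi / 2 * 1 ≤ xx j := by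
    unfold xx
    have : (1 : ℝ) ≤ j := by exact_mod_cast hj
    have := Real.pi_pos
    gcongr
  have := Real.pi_gt_three
  linarith

/-- **Core with prescribed primes.** -/
theorem coreP : ∃ m₀ : ℕ, 2 ≤ m₀ ∧ ∀ m : ℕ, m₀ ≤ m → ∀ lam : ℝ, 2 * m + 1 < lam →
    ∃ c₀ ε₀ : ℝ, 0 < c₀ ∧ 0 < ε₀ ∧ ∀ c : ℝ, 0 < c → c ≤ c₀ → ∀ (P : Finset ℕ) (γ : ℕ → ℝ),
    (∀ p ∈ P, p.Prime ∧ uu c lam p ≤ 1) → (∀ p ∈ P, |γ p| ≤ (p : ℝ) ^ (-(1 / 2 + m / lam))) →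
    WW c 0 * EP lam P γ ^ 2 ≤ ε₀ →
    ∃ β α : ℕ → ℝ,
      (∀ p : ℕ, p.Prime → |β p| ≤ (p : ℝ) ^ (-(1 / 2 + m / lam))) ∧
      (∀ n : ℕ, 1 ≤ n → α n = if Squarefree n then ∏ p ∈ n.primeFactors, β p else 0) ∧
      Summable (fun n => |α n|) ∧
      (∀ x : ℝ, 0 < x → ∑' n, α n * Real.cos (uu c lam n * x) =
        x ^ (2 * m) * ∑' n, α n * Real.cos (uu c lam n / x)) ∧
      (∀ p ∈ P, β p = γ p) ∧ (∀ p : ℕ, p ∉ P → uu c lam p ≤ 1 → β p = 0) := by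
  classical
  obtain ⟨m₁, lam₀, hlam8, hH⟩ := exists_hyp hoheisel
  refine ⟨max (max m₁ 2) ⌈lam₀⌉₊, (le_max_right _ _).trans (le_max_left _ _), fun m hm lam hlm => ?_⟩
  have hm1 : m₁ ≤ m := ((le_max_left _ _).trans (le_max_left _ _)).trans hm
  have hm2 : 2 ≤ m := ((le_max_right _ _).trans (le_max_left _ _)).trans hm
  have hm3 : lam₀ ≤ m := Nat.ceil_le.mp ((le_max_right _ _).trans hm)
  have hmR : (2:ℝ) ≤ m := by exact_mod_cast hm2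
  have hlam : lam₀ ≤ lam := by linarith
  have hlam0 : 0 < lam := by linarith
  obtain ⟨e, κ, CJ, CH, η, ρ, c₁, he0, he, hη, hρ0, hρ9, hfin, hc₁, hyp⟩ := hH m hm1 lam hlam
  obtain ⟨cN, hcN, hN⟩ := Pool.Agent.H5R3.T469N.taskN m hm2 ((ρ / 8) ^ 2) (by positivity)
  obtain ⟨cP, hcP, hPc⟩ := Pool.Agent.Y532.SC.primeCoef (m := m) (by omega) hlm hη
  -- the constants are nonnegative
  obtain ⟨hCJ, hCH, hκ⟩ : 0 ≤ CJ ∧ 0 ≤ CH ∧ 0 ≤ κ := by
    obtain ⟨B, h, -⟩ := hyp c₁ hc₁ le_rfl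
    exact ⟨h.hCJ, h.hCH, h.hκ⟩
  obtain ⟨K1, hK1⟩ : ∃ K1 : ℝ, K1 = 600 * (CJ * (720 + 2 * κ)) := ⟨_, rfl⟩
  obtain ⟨K2, hK2⟩ : ∃ K2 : ℝ, K2 = 2 + 2 * (CH * 81 * ρ ^ 2) := ⟨_, rfl⟩
  have hK10 : 0 ≤ K1 := by rw [hK1]; positivity
  have hK20 : 0 < K2 := by rw [hK2]; positivity
  obtain ⟨ε₀, hε₀⟩ : ∃ ε₀ : ℝ, ε₀ = min ((ρ / 8) ^ 2 / (K1 + 1)) (1 / (16 * ((K1 + 1) * K2))) := ⟨_, rfl⟩
  have hε₀pos : 0 < ε₀ := by
    rw [hε₀]
    apply lt_min <;> positivity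
  refine ⟨min c₁ (min cN cP), ε₀, lt_min hc₁ (lt_min hcN hcP), hε₀pos, fun c hc hcc P γ hP hγ hE => ?_⟩
  obtain ⟨B, h, hB2⟩ := hyp c hc (hcc.trans (min_le_left _ _))
  have hcN' : c ≤ cN := hcc.trans ((min_le_right _ _).trans (min_le_left _ _))
  have hcP' : c ≤ cP := hcc.trans ((min_le_right _ _).trans (min_le_right _ _))
  have hPp : ∀ p ∈ P, p.Prime := fun p hp => (hP p hp).1
  have hBh : ∀ j, ∀ p ∈ B j, 1 ≤ j ∧ p.Prime ∧ |uu c lam p - xx j| ≤ 1 / 2 :=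
    fun j p hp => ⟨(h.hB j p hp).1, (h.hB j p hp).2.1, (h.hB j p hp).2.2.trans he⟩
  have hsm : ∀ p : ℕ, uu c lam p ≤ 1 → ∀ j, p ∉ B j := by
    intro p hp j hpj
    have := uu_block (hBh j p hpj).1 (hBh j p hpj).2.2
    linarith
  have hPB : ∀ p ∈ P, ∀ j, p ∉ B j := fun p hp => hsm p (hP p hp).2
  have hr : ∀ T ∈ P.powerset.erase ∅, 1 ≤ rT lam T := by
    intro T hT
    unfold rT
    apply Real.one_le_rpow
    · have : 0 < ∏ p ∈ T, p := prod_pos fun p hp => (hPp p (mem_powerset.1 (mem_erase.1 hT).2 hp)).pos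
      exact_mod_cast this
    · positivity
  have hW0 : 1 ≤ WW c 0 := by
    unfold WW
    have hc10 := h.hc1
    have h1 : 1 ≤ Real.log ((1 + ((0 : ℕ) : ℝ)) / c) := by
      rw [Real.le_log_iff_exp_le (by positivity), Nat.cast_zero, add_zero]
      have := Real.exp_one_lt_d9
      rw [le_div_iff₀ hc]
      nlinarith
    have h2 : 1 ≤ Real.log ((1 + ((0 : ℕ) : ℝ)) / c) ^ 4 := one_le_pow₀ h1
    rw [Nat.cast_zero] at h2 ⊢
    linarith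
  have hEE : EP lam P γ ^ 2 ≤ WW c 0 * EP lam P γ ^ 2 := le_mul_of_one_le_left (sq_nonneg _) hW0
  have hE1 : 600 * (CJ * (720 + 2 * κ)) * WW c 0 * EP lam P γ ^ 2 ≤ (ρ / 8) ^ 2 := by
    rw [← hK1]
    have h1 : WW c 0 * EP lam P γ ^ 2 ≤ (ρ / 8) ^ 2 / (K1 + 1) := hE.trans (by rw [hε₀]; exact min_le_left _ _)
    rw [le_div_iff₀ (by positivity)] at h1
    have h2 : 0 ≤ WW c 0 * EP lam P γ ^ 2 := by positivity
    nlinarith
  have hE2 : 600 * (CJ * (720 + 2 * κ)) * (2 + 2 * (CH * 81 * ρ ^ 2)) * EP lam P γ ^ 2 ≤ 1 / 16 := by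
    rw [← hK1, ← hK2]
    have h1 : EP lam P γ ^ 2 ≤ 1 / (16 * ((K1 + 1) * K2)) := (hEE.trans hE).trans (by rw [hε₀]; exact min_le_right _ _)
    rw [le_div_iff₀ (by positivity)] at h1
    have h2 : 0 ≤ K2 * EP lam P γ ^ 2 := by positivity
    nlinarith
  obtain ⟨b, hb1, hb2, hb3⟩ := fixedP h Pool.Agent.H180R3.Q469.taskQ hρ0 hρ9 hfin P γ hr hE1 hE2 (ss c m) (hN c hc hcN')
  have hv : Summable fun n => |vv c lam B b n| := summable_vv h hb2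
  have hsP := summable_alpP (γ := γ) hPp hPB hv
  refine ⟨betP c lam B b P γ, fun n => if n = 0 then b 0 - 1 else alpP c lam B b P γ n, ?_, ?_, ?_, ?_, ?_, ?_⟩
  · intro p hp
    unfold betP
    split_ifs with hpP
    · exact hγ p hpP
    · refine hPc c hc hcP' B hBh hB2 b (fun j => ?_) p hp
      have h1 := hb1 (j + 1)
      rw [Finset.sum_range_succ] at h1
      have h2 : 0 ≤ ∑ i ∈ range j, WW c i * b i ^ 2 :=
        Finset.sum_nonneg fun i _ => mul_nonneg (WW_pos h.hc h.hc1 i).le (sq_nonneg _)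
      have h3 : ρ ^ 2 ≤ 1 := by nlinarith [sq_nonneg ρ]
      linarith
  · intro n hn
    simp only []
    rw [if_neg (by omega)]
    unfold alpP
    rw [if_neg (by omega)]
  · refine hsP.congr_cofinite ?_
    rw [Filter.EventuallyEq, Filter.eventually_cofinite]
    refine (Set.finite_singleton 0).subset ?_
    intro n hn
    by_contra h0
    apply hn
    have h0' : n ≠ 0 := h0
    simp only [if_neg h0']
  · intro x hx
    exact relP h.hlam hm2 hBh h.hBne hb2 hPp hPB hb3 _ (fun n => rfl) hx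
  · intro p hp
    unfold betP
    rw [if_pos hp]
  · intro p hp hu
    unfold betP
    rw [if_neg hp]
    unfold bet
    rw [if_neg (hsm p hu _)]

end Pool.Agent.Q286.SP
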