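import Mathlib

/-!
# A Phragmén–Lindelöf principle in a strip with polynomial and exponential weights
-/

set_option autoImplicit false

open Complex Filter Asymptotics Topology

namespace Pool.Agent.Q286.SP

theorem strip_bound {G : ℂ → ℂ} (hG : Differentiable ℂ G) {C₀ : ℝ}
    (hgr : ∀ s : ℂ, ‖G s‖ ≤ C₀ * Real.exp (‖s‖ ^ (3 : ℝ))) {a b : ℝ} (hab : a < b) (ha : 0 ≤ a) (A : ℕ)
    {Y : ℝ} (hY : 0 < Y) {C : ℝ}
    (h1 : ∀ s : ℂ, s.re = a → ‖G s‖ * Y ^ a ≤ C * ‖s + 1‖ ^ A)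
    (h2 : ∀ s : ℂ, s.re = b → ‖G s‖ * Y ^ b ≤ C * ‖s + 1‖ ^ A) {s : ℂ} (hs1 : a ≤ s.re) (hs2 : s.re ≤ b) :
    ‖G s‖ * Y ^ s.re ≤ C * ‖s + 1‖ ^ A := by
  have hYc : (Y : ℂ) ≠ 0 := by exact_mod_cast hY.ne'
  have hne : ∀ z : ℂ, 0 ≤ z.re → z + 1 ≠ 0 := by
    intro z hz h
    have := congrArg Complex.re h
    simp at this
    linarith
  have hn1 : ∀ z : ℂ, 0 ≤ z.re → 1 ≤ ‖z + 1‖ := by
    intro z hz
    refine le_trans ?_ (Complex.abs_re_le_norm _)
    rw [Complex.add_re, Complex.one_re, abs_of_nonneg (by linarith)]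
    linarith
  have hnorm : ∀ z : ℂ, ‖(Y : ℂ) ^ z‖ = Y ^ z.re := fun z => Complex.norm_cpow_eq_rpow_re_of_pos hY z
  obtain ⟨f, hf⟩ : ∃ f : ℂ → ℂ, f = fun z => G z * (Y : ℂ) ^ z / (z + 1) ^ A := ⟨_, rfl⟩
  have hfn : ∀ z : ℂ, ‖f z‖ = ‖G z‖ * Y ^ z.re / ‖z + 1‖ ^ A := by
    intro z
    rw [hf]
    simp only
    rw [norm_div, norm_mul, norm_pow, hnorm]
  have hd : DiffContOnCl ℂ f (re ⁻¹' Set.Ioo a b) := by
    have hop : ∀ z : ℂ, 0 ≤ z.re → DifferentiableAt ℂ f z := by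
      intro z hz
      rw [hf]
      apply DifferentiableAt.div
      · apply DifferentiableAt.mul (hG z)
        exact (differentiableAt_id.const_cpow (Or.inl hYc))
      · fun_prop
      · exact pow_ne_zero _ (hne z hz)
    refine ⟨fun z hz => (hop z (by have := hz.1; linarith)).differentiableWithinAt, fun z hz => ?_⟩
    have hz' : z ∈ closure (re ⁻¹' Set.Ioo a b) := hz
    have hcl : closure (re ⁻¹' Set.Ioo a b) ⊆ {z : ℂ | a ≤ z.re} :=
      closure_minimal (fun w hw => le_of_lt hw.1) (isClosed_le continuous_const Complex.continuous_re)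
    have := hcl hz'
    exact (hop z (by have h3 : a ≤ z.re := this; linarith)).continuousAt.continuousWithinAt
  obtain ⟨c, hc⟩ : ∃ c : ℝ, c = Real.pi / (2 * (b - a)) := ⟨_, rfl⟩
  have hba : 0 < b - a := by linarith
  have hc0 : 0 < c := by rw [hc]; positivity
  have hB : ∃ c < Real.pi / (b - a), ∃ B, f =O[comap (_root_.abs ∘ im) atTop ⊓ 𝓟 (re ⁻¹' Set.Ioo a b)]
      fun z ↦ Real.exp (B * Real.exp (c * |z.im|)) := by
    refine ⟨c, ?_, 6 * Real.exp (c * b) / c ^ 3, ?_⟩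
    · rw [hc, div_lt_div_iff₀ (by positivity) hba]
      nlinarith [Real.pi_pos]
    · rw [isBigO_iff]
      refine ⟨|C₀| * max (Y ^ a) (Y ^ b), ?_⟩
      have : ∀ᶠ z : ℂ in comap (_root_.abs ∘ im) atTop ⊓ 𝓟 (re ⁻¹' Set.Ioo a b), z ∈ re ⁻¹' Set.Ioo a b :=
        mem_inf_of_right (mem_principal_self _)
      filter_upwards [this] with z hz
      have hz1 : a < z.re := hz.1
      have hz2 : z.re < b := hz.2
      rw [hfn, Real.norm_eq_abs, abs_of_pos (Real.exp_pos _)]
      have e1 : ‖G z‖ ≤ |C₀| * Real.exp (‖z‖ ^ (3 : ℝ)) := (hgr z).trans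
        (mul_le_mul_of_nonneg_right (le_abs_self _) (Real.exp_pos _).le)
      have e2 : Y ^ z.re ≤ max (Y ^ a) (Y ^ b) := by
        rcases le_total 1 Y with hY1 | hY1
        · exact (Real.rpow_le_rpow_of_exponent_le hY1 hz2.le).trans (le_max_right _ _)
        · exact (Real.rpow_le_rpow_of_exponent_ge hY hY1 hz1.le).trans (le_max_left _ _)
      have e3 : 1 ≤ ‖z + 1‖ ^ A := one_le_pow₀ (hn1 z (by linarith))
      have e4 : ‖z‖ ^ (3 : ℝ) ≤ 6 * Real.exp (c * b) / c ^ 3 * Real.exp (c * |z.im|) := by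
        have h3 : ‖z‖ ≤ b + |z.im| := by
          refine (Complex.norm_le_abs_re_add_abs_im z).trans ?_
          rw [abs_of_nonneg (show 0 ≤ z.re by linarith)]
          linarith
        have h4 : ‖z‖ ^ (3 : ℝ) = ‖z‖ ^ 3 := by
          rw [← Real.rpow_natCast]; norm_num
        rw [h4]
        have hb0 : 0 < b := by linarith
        have h5 := Real.pow_div_factorial_le_exp (c * (b + |z.im|)) (by positivity) 3
        have h6 : (Nat.factorial 3 : ℝ) = 6 := by norm_num [Nat.factorial]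
        rw [h6, div_le_iff₀ (by norm_num)] at h5
        have h7 : Real.exp (c * (b + |z.im|)) = Real.exp (c * b) * Real.exp (c * |z.im|) := by
          rw [← Real.exp_add]; congr 1; ring
        rw [h7, mul_pow] at h5
        calc ‖z‖ ^ 3 ≤ (b + |z.im|) ^ 3 := pow_le_pow_left₀ (norm_nonneg _) h3 3
          _ = c ^ 3 * (b + |z.im|) ^ 3 / c ^ 3 := by field_simp
          _ ≤ Real.exp (c * b) * Real.exp (c * |z.im|) * 6 / c ^ 3 := by gcongr
          _ = _ := by ring
      calc ‖G z‖ * Y ^ z.re / ‖z + 1‖ ^ A ≤ ‖G z‖ * Y ^ z.re := by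
            apply div_le_self (by positivity) e3
        _ ≤ (|C₀| * Real.exp (‖z‖ ^ (3 : ℝ))) * max (Y ^ a) (Y ^ b) :=
            mul_le_mul e1 e2 (by positivity) (by positivity)
        _ ≤ (|C₀| * Real.exp (6 * Real.exp (c * b) / c ^ 3 * Real.exp (c * |z.im|))) * max (Y ^ a) (Y ^ b) := by
            apply mul_le_mul_of_nonneg_right _ (by positivity)
            apply mul_le_mul_of_nonneg_left _ (abs_nonneg _)
            exact Real.exp_le_exp.2 e4
        _ = _ := by ring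
  have key := PhragmenLindelof.vertical_strip (C := C) hd hB (fun z hz => by
      rw [hfn, hz, div_le_iff₀ (pow_pos (by have := hn1 z (by linarith); linarith) _)]
      exact h1 z hz) (fun z hz => by
      rw [hfn, hz, div_le_iff₀ (pow_pos (by have := hn1 z (by linarith); linarith) _)]
      exact h2 z hz) hs1 hs2
  rw [hfn, div_le_iff₀ (pow_pos (by have := hn1 s (by linarith); linarith) _)] at key
  exact key

end Pool.Agent.Q286.SP
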