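import Mathlib
import Pool.Agent.Q286.SP.PL

/-!
# A lower bound on the critical line from the coefficients of an initial segment

`F = Σ a(n) n^{-s}`, `a(1) = 1`, `a(p) = 1` on a finite set `P ⊂ [X, 2X]`, `a(n) = 0` at the other `1 < n ≤ Q`.
If `|F(1/2+it)| ≤ M (1+|t|)^A` then `#P ≪ M X^{1/2}`.
-/

set_option autoImplicit false

open Complex Finset

namespace Pool.Agent.Q286.SP

/-- approximation of `F - 1` by the sum over `P` -/
lemma approx {a : ℕ → ℂ} (ha : ∀ n, ‖a n‖ ≤ 1) (a1 : a 1 = 1) {P : Finset ℕ} (hP1 : ∀ p ∈ P, 1 < p)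
    (hP : ∀ p ∈ P, a p = 1) {Q : ℝ} (hQ : 1 ≤ Q) (h0 : ∀ n : ℕ, 1 < n → n ∉ P → (n : ℝ) ≤ Q → a n = 0)
    {s : ℂ} (hs : 2 ≤ s.re) :
    ‖LSeries a s - 1 - ∑ p ∈ P, (p : ℂ) ^ (-s)‖ ≤ 2 * Q ^ (2 - s.re) := by
  classical
  have hsum : LSeriesSummable a s := LSeriesSummable_of_bounded_of_one_lt_re (m := 1) (fun n _ => ha n) (by linarith)
  have hQ0 : 0 < Q := by linarith
  obtain ⟨S, hS⟩ : ∃ S : Finset ℕ, S = insert 1 P := ⟨_, rfl⟩
  have h1P : (1 : ℕ) ∉ P := fun h => by have := hP1 1 h; omega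
  have hSsum : ∑ n ∈ S, LSeries.term a s n = 1 + ∑ p ∈ P, (p : ℂ) ^ (-s) := by
    rw [hS, sum_insert h1P]
    congr 1
    · rw [LSeries.term_of_ne_zero one_ne_zero, a1]
      simp
    · apply sum_congr rfl
      intro p hp
      have := hP1 p hp
      rw [LSeries.term_of_ne_zero (by omega), hP p hp, cpow_neg, one_div]
  have h1 : HasSum (fun n => if n ∈ S then 0 else LSeries.term a s n) (LSeries a s - ∑ n ∈ S, LSeries.term a s n) := by
    have h2 : HasSum (fun n => if n ∈ S then LSeries.term a s n else 0) (∑ n ∈ S, LSeries.term a s n) := by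
      have h3 := hasSum_sum_of_ne_finset_zero (f := fun n => if n ∈ S then LSeries.term a s n else 0) (s := S)
        (L := SummationFilter.unconditional ℕ) (fun n hn => if_neg hn)
      have h4 : ∑ n ∈ S, (if n ∈ S then LSeries.term a s n else 0) = ∑ n ∈ S, LSeries.term a s n :=
        sum_congr rfl fun n hn => if_pos hn
      rwa [h4] at h3
    have h5 := hsum.hasSum.sub h2
    have e : (fun n => if n ∈ S then 0 else LSeries.term a s n) = fun n =>
        LSeries.term a s n - (if n ∈ S then LSeries.term a s n else 0) := by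
      funext n
      split_ifs <;> simp
    rw [e]
    exact h5
  have h2 : LSeries a s - 1 - ∑ p ∈ P, (p : ℂ) ^ (-s) = LSeries a s - ∑ n ∈ S, LSeries.term a s n := by
    rw [hSsum]; ring
  rw [h2]
  have hz2 := hasSum_zeta_two
  have hmaj : HasSum (fun n : ℕ => Q ^ (2 - s.re) * (1 / (n : ℝ) ^ 2)) (Q ^ (2 - s.re) * (Real.pi ^ 2 / 6)) :=
    hz2.mul_left _
  have hb : ∀ n, ‖(if n ∈ S then 0 else LSeries.term a s n)‖ ≤ Q ^ (2 - s.re) * (1 / (n : ℝ) ^ 2) := by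
    intro n
    split_ifs with hn
    · rw [norm_zero]
      positivity
    · by_cases hn0 : n = 0
      · subst hn0
        rw [LSeries.term_zero, norm_zero]
        positivity
      have hn1 : n ≠ 1 := by
        rintro rfl
        exact hn (by rw [hS]; exact mem_insert_self _ _)
      have hnP : n ∉ P := fun h => hn (by rw [hS]; exact mem_insert_of_mem h)
      by_cases hnQ : (n : ℝ) ≤ Q
      · rw [LSeries.term_of_ne_zero hn0, h0 n (by omega) hnP hnQ, zero_div, norm_zero]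
        positivity
      · push Not at hnQ
        have hnR : (0 : ℝ) < n := by exact_mod_cast Nat.pos_of_ne_zero hn0
        rw [LSeries.term_of_ne_zero hn0, norm_div, Complex.norm_natCast_cpow_of_pos (Nat.pos_of_ne_zero hn0)]
        have e1 : (n : ℝ) ^ s.re = (n : ℝ) ^ 2 * (n : ℝ) ^ (s.re - 2) := by
          rw [← Real.rpow_natCast, ← Real.rpow_add hnR]
          congr 1
          push_cast
          ring
        have e2 : Q ^ (s.re - 2) ≤ (n : ℝ) ^ (s.re - 2) := Real.rpow_le_rpow hQ0.le hnQ.le (by linarith)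
        have e3 : 0 < Q ^ (s.re - 2) := Real.rpow_pos_of_pos hQ0 _
        rw [e1]
        have e4 : Q ^ (2 - s.re) = (Q ^ (s.re - 2))⁻¹ := by
          rw [← Real.rpow_neg hQ0.le]
          congr 1
          ring
        rw [e4]
        have hn2 : 0 < (n : ℝ) ^ 2 := by positivity
        calc ‖a n‖ / ((n : ℝ) ^ 2 * (n : ℝ) ^ (s.re - 2)) ≤ 1 / ((n : ℝ) ^ 2 * (n : ℝ) ^ (s.re - 2)) := by
              gcongr
              exact ha n
          _ ≤ 1 / ((n : ℝ) ^ 2 * Q ^ (s.re - 2)) := by gcongr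
          _ = _ := by field_simp
  have h3 : ‖LSeries a s - ∑ n ∈ S, LSeries.term a s n‖ ≤ Q ^ (2 - s.re) * (Real.pi ^ 2 / 6) := by
    rw [← h1.tsum_eq]
    exact tsum_of_norm_bounded hmaj hb
  refine h3.trans ?_
  have hpi := Real.pi_lt_d2
  have hpi0 := Real.pi_pos
  have h4 : 0 < Q ^ (2 - s.re) := Real.rpow_pos_of_pos hQ0 _
  have h5 : Real.pi ^ 2 / 6 ≤ 2 := by nlinarith
  nlinarith

/-- **lower bound** -/
theorem lower {F : ℂ → ℂ} {a : ℕ → ℂ} (hF : Differentiable ℂ F) {C₀ : ℝ}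
    (hgr : ∀ s : ℂ, ‖F s‖ ≤ C₀ * Real.exp (‖s‖ ^ (3 : ℝ))) (hser : ∀ s : ℂ, 1 < s.re → F s = LSeries a s)
    (ha : ∀ n, ‖a n‖ ≤ 1) (a1 : a 1 = 1) {P : Finset ℕ} (hP1 : ∀ p ∈ P, 1 < p)
    (hP : ∀ p ∈ P, a p = 1) {Q : ℝ} (hQ : 1 ≤ Q) (h0 : ∀ n : ℕ, 1 < n → n ∉ P → (n : ℝ) ≤ Q → a n = 0)
    {X : ℝ} (hX : 1 ≤ X) (hPX : ∀ p ∈ P, X ≤ p ∧ (p : ℝ) ≤ 2 * X) (hne : P.Nonempty) {σ : ℝ} (hσ : 2 ≤ σ)
    (ht1 : 4 * Q ^ (2 - σ) ≤ (2 * X) ^ (-σ)) (ht2 : 4 * Q ^ (2 - (σ + 1)) ≤ (2 * X) ^ (-(σ + 1)))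
    (A : ℕ) {M : ℝ} (hM : 1 ≤ M) (hbd : ∀ t : ℝ, ‖F (1 / 2 + t * I)‖ ≤ M * (1 + |t|) ^ A)
    {K : ℝ} (hK : K = 2 ^ (-σ) * ((σ + 1) ^ A)⁻¹ / 8) :
    (P.card : ℝ) * (K / 2) ^ σ ≤ 2 ^ (A + 2) * (σ + 1) ^ A * M * (K * X) ^ ((1 : ℝ) / 2) := by
  have hN : (1 : ℝ) ≤ P.card := by exact_mod_cast hne.card_pos
  have hQ0 : 0 < Q := by linarith
  have hX0 : 0 < X := by linarith
  have hσA : 0 < (σ + 1) ^ A := by positivity
  have hK0 : 0 < K := by rw [hK]; positivity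
  have hY : 0 < K * X := by positivity
  obtain ⟨G, hG⟩ : ∃ G : ℂ → ℂ, G = fun s => F s - 1 := ⟨_, rfl⟩
  have hGd : Differentiable ℂ G := by rw [hG]; exact hF.sub_const 1
  have hGgr : ∀ s : ℂ, ‖G s‖ ≤ (|C₀| + 1) * Real.exp (‖s‖ ^ (3 : ℝ)) := by
    intro s
    rw [hG]
    have h1 := hgr s
    have h2 : 1 ≤ Real.exp (‖s‖ ^ (3 : ℝ)) := Real.one_le_exp (by positivity)
    have h3 := le_abs_self C₀
    calc ‖F s - 1‖ ≤ ‖F s‖ + ‖(1 : ℂ)‖ := norm_sub_le _ _
      _ ≤ C₀ * Real.exp (‖s‖ ^ (3 : ℝ)) + 1 := by rw [norm_one]; linarith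
      _ ≤ _ := by nlinarith
  -- upper bound on the line `σ + 1`
  have hup : ∀ s : ℂ, s.re = σ + 1 → ‖G s‖ ≤ 2 * P.card * X ^ (-(σ + 1)) := by
    intro s hs
    have h1 := approx ha a1 hP1 hP hQ h0 (s := s) (by rw [hs]; linarith)
    have h2 : ‖∑ p ∈ P, (p : ℂ) ^ (-s)‖ ≤ P.card * X ^ (-(σ + 1)) := by
      refine (norm_sum_le _ _).trans ?_
      rw [← nsmul_eq_mul, ← sum_const]
      apply sum_le_sum
      intro p hp
      have hp0 : 0 < p := by have := hP1 p hp; omega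
      rw [Complex.norm_natCast_cpow_of_pos hp0, Complex.neg_re, hs]
      exact Real.rpow_le_rpow_of_nonpos hX0 (hPX p hp).1 (by linarith)
    have h3 : (2 * X) ^ (-(σ + 1)) ≤ X ^ (-(σ + 1)) :=
      Real.rpow_le_rpow_of_nonpos hX0 (by linarith) (by linarith)
    have h4 : G s = (LSeries a s - 1 - ∑ p ∈ P, (p : ℂ) ^ (-s)) + ∑ p ∈ P, (p : ℂ) ^ (-s) := by
      rw [hG]
      simp only
      rw [hser s (by rw [hs]; linarith)]
      ring
    rw [h4]
    rw [hs] at h1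
    have h5 : 0 < X ^ (-(σ + 1)) := Real.rpow_pos_of_pos hX0 _
    refine (norm_add_le _ _).trans ?_
    nlinarith
  -- lower bound at `σ`
  have hlow : P.card * (2 * X) ^ (-σ) / 2 ≤ ‖G (σ : ℂ)‖ := by
    have h1 := approx ha a1 hP1 hP hQ h0 (s := (σ : ℂ)) (by rw [Complex.ofReal_re]; exact hσ)
    have h2 : P.card * (2 * X) ^ (-σ) ≤ ‖∑ p ∈ P, (p : ℂ) ^ (-(σ : ℂ))‖ := by
      refine le_trans ?_ (Complex.re_le_norm _)
      rw [Complex.re_sum, ← nsmul_eq_mul, ← sum_const]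
      apply sum_le_sum
      intro p hp
      have hp0 : 0 < p := by have := hP1 p hp; omega
      have hpR : (0 : ℝ) < p := by exact_mod_cast hp0
      have e : ((p : ℂ) ^ (-(σ : ℂ))).re = (p : ℝ) ^ (-σ) := by
        have : (p : ℂ) ^ (-(σ : ℂ)) = (((p : ℝ) ^ (-σ) : ℝ) : ℂ) := by
          rw [Complex.ofReal_cpow hpR.le]
          push_cast
          rfl
        rw [this, Complex.ofReal_re]
      rw [e]
      exact Real.rpow_le_rpow_of_nonpos hpR (hPX p hp).2 (by linarith)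
    have h4 : ∑ p ∈ P, (p : ℂ) ^ (-(σ : ℂ)) = G (σ : ℂ) - (LSeries a (σ : ℂ) - 1 - ∑ p ∈ P, (p : ℂ) ^ (-(σ : ℂ))) := by
      rw [hG]
      simp only
      rw [hser (σ : ℂ) (by rw [Complex.ofReal_re]; linarith)]
      ring
    rw [h4] at h2
    have h5 := norm_sub_le (G (σ : ℂ)) (LSeries a (σ : ℂ) - 1 - ∑ p ∈ P, (p : ℂ) ^ (-(σ : ℂ)))
    rw [Complex.ofReal_re] at h1
    have h6 : 0 < (2 * X) ^ (-σ) := Real.rpow_pos_of_pos (by linarith) _
    nlinarith
  -- on the line `1/2`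
  have hhalf : ∀ s : ℂ, s.re = 1 / 2 → ‖G s‖ ≤ 2 ^ (A + 1) * M * ‖s + 1‖ ^ A := by
    intro s hs
    have hsI : s = 1 / 2 + (s.im : ℂ) * I := by
      apply Complex.ext
      · simp [hs]
      · simp
    have h1 := hbd s.im
    rw [← hsI] at h1
    have h2 : 1 + |s.im| ≤ 2 * ‖s + 1‖ := by
      have h3 : (1 + |s.im|) ^ 2 ≤ (2 * ‖s + 1‖) ^ 2 := by
        rw [mul_pow, Complex.sq_norm, Complex.normSq_apply]
        have e1 : (s + 1).re = 3 / 2 := by rw [Complex.add_re, hs, Complex.one_re]; norm_num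
        have e2 : (s + 1).im = s.im := by rw [Complex.add_im, Complex.one_im, add_zero]
        rw [e1, e2]
        have e3 := sq_abs s.im
        nlinarith [sq_nonneg (|s.im| - 1)]
      exact le_of_sq_le_sq h3 (by positivity)
    have h4 : (1 + |s.im|) ^ A ≤ 2 ^ A * ‖s + 1‖ ^ A := by
      rw [← mul_pow]
      exact pow_le_pow_left₀ (by positivity) h2 A
    have h5 : 1 ≤ (1 + |s.im|) ^ A := one_le_pow₀ (by have := abs_nonneg s.im; linarith)
    rw [hG]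
    have hM0 : 0 < M := by linarith
    calc ‖F s - 1‖ ≤ ‖F s‖ + ‖(1 : ℂ)‖ := norm_sub_le _ _
      _ ≤ M * (1 + |s.im|) ^ A + M * (1 + |s.im|) ^ A := by
          rw [norm_one]
          have : 1 ≤ M * (1 + |s.im|) ^ A := one_le_mul_of_one_le_of_one_le hM h5
          linarith
      _ = 2 * M * (1 + |s.im|) ^ A := by ring
      _ ≤ 2 * M * (2 ^ A * ‖s + 1‖ ^ A) := mul_le_mul_of_nonneg_left h4 (by positivity)
      _ = _ := by ring
  obtain ⟨C, hC⟩ : ∃ C : ℝ, C = max (2 ^ (A + 1) * M * (K * X) ^ ((1 : ℝ) / 2)) (2 * P.card * K ^ (σ + 1)) := ⟨_, rfl⟩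
  have key := strip_bound hGd hGgr (a := 1 / 2) (b := σ + 1) (by linarith) (by norm_num) A hY (C := C)
    (fun s hs => by
      have h1 := hhalf s hs
      have h2 : 2 ^ (A + 1) * M * (K * X) ^ ((1 : ℝ) / 2) ≤ C := by rw [hC]; exact le_max_left _ _
      calc ‖G s‖ * (K * X) ^ ((1 : ℝ) / 2) ≤ (2 ^ (A + 1) * M * ‖s + 1‖ ^ A) * (K * X) ^ ((1 : ℝ) / 2) :=
            mul_le_mul_of_nonneg_right h1 (by positivity)
        _ = (2 ^ (A + 1) * M * (K * X) ^ ((1 : ℝ) / 2)) * ‖s + 1‖ ^ A := by ring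
        _ ≤ _ := mul_le_mul_of_nonneg_right h2 (by positivity))
    (fun s hs => by
      have h1 := hup s hs
      have h2 : 2 * P.card * K ^ (σ + 1) ≤ C := by rw [hC]; exact le_max_right _ _
      have h3 : 1 ≤ ‖s + 1‖ ^ A := by
        apply one_le_pow₀
        refine le_trans ?_ (Complex.abs_re_le_norm _)
        rw [Complex.add_re, Complex.one_re, hs, abs_of_nonneg (by linarith)]
        linarith
      have h4 : X ^ (-(σ + 1)) * (K * X) ^ (σ + 1) = K ^ (σ + 1) := by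
        rw [Real.mul_rpow hK0.le hX0.le, Real.rpow_neg hX0.le]
        have := (Real.rpow_pos_of_pos hX0 (σ + 1)).ne'
        field_simp
      have hC0 : 0 ≤ C := le_trans (by positivity) h2
      calc ‖G s‖ * (K * X) ^ (σ + 1) ≤ (2 * P.card * X ^ (-(σ + 1))) * (K * X) ^ (σ + 1) :=
            mul_le_mul_of_nonneg_right h1 (by positivity)
        _ = 2 * P.card * K ^ (σ + 1) := by rw [← h4]; ring
        _ ≤ C := h2
        _ ≤ C * ‖s + 1‖ ^ A := le_mul_of_one_le_right hC0 h3)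
    (s := (σ : ℂ)) (by rw [Complex.ofReal_re]; linarith) (by rw [Complex.ofReal_re]; linarith)
  rw [Complex.ofReal_re] at key
  have hn : ‖(σ : ℂ) + 1‖ = σ + 1 := by
    have : (σ : ℂ) + 1 = ((σ + 1 : ℝ) : ℂ) := by push_cast; ring
    rw [this, Complex.norm_real, Real.norm_eq_abs, abs_of_nonneg (by linarith)]
  rw [hn] at key
  have h1 : P.card * (K / 2) ^ σ / 2 ≤ C * (σ + 1) ^ A := by
    refine le_trans (le_of_eq ?_) ((mul_le_mul_of_nonneg_right hlow (by positivity : 0 ≤ (K * X) ^ σ)).trans key)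
    have e : (2 * X) ^ (-σ) * (K * X) ^ σ = (K / 2) ^ σ := by
      rw [Real.rpow_neg (by positivity), Real.mul_rpow (by norm_num) hX0.le, Real.mul_rpow hK0.le hX0.le,
        Real.div_rpow hK0.le (by norm_num)]
      have := (Real.rpow_pos_of_pos hX0 σ).ne'
      field_simp
    rw [← e]
    ring
  -- the maximum is the first term
  have h2 : C = 2 ^ (A + 1) * M * (K * X) ^ ((1 : ℝ) / 2) := by
    rcases le_total (2 * P.card * K ^ (σ + 1)) (2 ^ (A + 1) * M * (K * X) ^ ((1 : ℝ) / 2)) with h | h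
    · rw [hC, max_eq_left h]
    · exfalso
      rw [hC, max_eq_right h] at h1
      have e1 : K ^ (σ + 1) = K ^ σ * K := by rw [Real.rpow_add hK0, Real.rpow_one]
      have e2 : (K / 2) ^ σ = K ^ σ * 2 ^ (-σ) := by
        rw [Real.div_rpow hK0.le (by norm_num), Real.rpow_neg (by norm_num)]
        ring
      have e3 : K * (σ + 1) ^ A = 2 ^ (-σ) / 8 := by
        rw [hK]
        field_simp
      rw [e1, e2] at h1
      have hKσ : 0 < K ^ σ := Real.rpow_pos_of_pos hK0 _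
      have h2σ : (0 : ℝ) < 2 ^ (-σ) := Real.rpow_pos_of_pos (by norm_num) _
      have e4 : 2 * P.card * (K ^ σ * K) * (σ + 1) ^ A = P.card * K ^ σ * (2 ^ (-σ) / 4) := by
        calc 2 * P.card * (K ^ σ * K) * (σ + 1) ^ A = 2 * P.card * K ^ σ * (K * (σ + 1) ^ A) := by ring
          _ = _ := by rw [e3]; ring
      rw [e4] at h1
      have h5 : 0 < P.card * K ^ σ * 2 ^ (-σ) := by positivity
      nlinarith
  rw [h2] at h1
  calc (P.card : ℝ) * (K / 2) ^ σ ≤ 2 * (2 ^ (A + 1) * M * (K * X) ^ ((1 : ℝ) / 2) * (σ + 1) ^ A) := by linarith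
    _ = _ := by ring

end Pool.Agent.Q286.SP
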