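import Mathlib
import Pool.Agent.Q286.SP.Elt
import Pool.Agent.Q286.SP.Lower

/-!
# Large values on the critical line in the conductor aspect
-/

set_option autoImplicit false

open Complex Finset Filter

namespace Pool.Agent.Q286.SP

open Pool.Agent.Y532.SC

lemma co_apply (g : ℕ → ℝ) (n : ℕ) :
    co g n = ((if Squarefree n then ∏ p ∈ n.primeFactors, g p else 0 : ℝ) : ℂ) := by
  unfold co Pool.Agent.H902R3.I469.ff Pool.Agent.H902R3.I469.fr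
  congr 1
  split_ifs with h
  · apply prod_congr rfl
    intro p hp
    exact gam_cf (Nat.prime_of_mem_primeFactors hp)
  · rfl

lemma co_prime (g : ℕ → ℝ) {p : ℕ} (hp : p.Prime) : co g p = (g p : ℂ) := by
  rw [co_apply, if_pos hp.prime.squarefree, hp.primeFactors, prod_singleton]

lemma co_zero_of {g : ℕ → ℝ} {P : Finset ℕ} {X Q : ℝ} (hX : 0 < X) (hPX : ∀ p ∈ P, p.Prime ∧ X < p)
    (hg : ∀ p : ℕ, p ∉ P → (p : ℝ) ≤ Q → g p = 0) (hXQ : Q ≤ X ^ 2) {n : ℕ} (hn : 1 < n) (hnP : n ∉ P)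
    (hnQ : (n : ℝ) ≤ Q) : co g n = 0 := by
  rw [co_apply]
  split_ifs with hs
  · have : ∏ p ∈ n.primeFactors, g p = 0 := by
      by_contra hne
      have hall : ∀ p ∈ n.primeFactors, p ∈ P := by
        intro p hp
        by_contra hpP
        apply hne
        apply prod_eq_zero hp
        apply hg p hpP
        have h1 : p ≤ n := Nat.le_of_mem_primeFactors hp
        have h2 : (p : ℝ) ≤ n := by exact_mod_cast h1
        linarith
      obtain ⟨p, hp, hpn⟩ := Nat.exists_prime_and_dvd (n := n) (by omega)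
      obtain ⟨k, hk⟩ := hpn
      have hpmem : p ∈ n.primeFactors := Nat.mem_primeFactors.2 ⟨hp, ⟨k, hk⟩, by omega⟩
      have hk1 : k ≠ 1 := by
        rintro rfl
        rw [mul_one] at hk
        exact hnP (hk ▸ hall p hpmem)
      obtain ⟨q, hq, hqk⟩ := Nat.exists_prime_and_dvd hk1
      have hqmem : q ∈ n.primeFactors := Nat.mem_primeFactors.2 ⟨hq, by rw [hk]; exact hqk.mul_left p, by omega⟩
      have h1 := (hPX p (hall p hpmem)).2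
      have h2 := (hPX q (hall q hqmem)).2
      have hk0 : 0 < k := by
        rcases Nat.eq_zero_or_pos k with h | h
        · rw [h, mul_zero] at hk
          omega
        · exact h
      have h3 : q ≤ k := Nat.le_of_dvd hk0 hqk
      have h4 : (q : ℝ) ≤ k := by exact_mod_cast h3
      have h5 : (n : ℝ) = p * k := by rw [hk]; push_cast; rfl
      have h6 : X ^ 2 < p * k := by nlinarith
      linarith
    rw [this]
    simp
  · simp

/-- **large values** -/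
theorem big_values : ∃ m₀ : ℕ, 2 ≤ m₀ ∧ ∀ m : ℕ, m₀ ≤ m → ∀ lam : ℝ, 2 * m + 1 < lam → lam ≤ 2 * m + 2 →
    ∀ δ : ℝ, 0 ≤ δ → δ < (m - 1) / lam → ∀ A : ℕ, ∃ Q₁ : ℝ, 1 ≤ Q₁ ∧ ∀ Q : ℝ, Q₁ ≤ Q →
      ∃ (g : ℕ → ℝ) (F : ℂ → ℂ), One lam (m + 1 - lam / 2) Q ((-1) ^ (m + 1)) g F ∧
        (∀ k : ℕ, 1 ≤ k → k + 1 ≤ m → F (1 / 2 + (m - 2 * k) / lam) = 0) ∧
        ¬ ∀ t : ℝ, ‖F (1 / 2 + t * I)‖ ≤ Q ^ δ * (1 + |t|) ^ A := by
  obtain ⟨m₀, hm₀2, hm₀⟩ := eltP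
  refine ⟨m₀, hm₀2, fun m hm lam hlm hlm2 δ hδ0 hδ A => ?_⟩
  obtain ⟨Q₀, ε₀, hQ₀, hε₀, hE⟩ := hm₀ m hm lam hlm hlm2
  obtain ⟨δH, ηH, hδH0, hδH1, hηH, X₀, hX₀, hH⟩ := Pool.Agent.H469R10.HO.hoheisel
  have hmR : (2 : ℝ) ≤ m := by exact_mod_cast hm₀2.trans hm
  have hlam : 0 < lam := by linarith
  -- exponents
  obtain ⟨τ, hτ⟩ : ∃ τ : ℝ, τ = (m - 1) / lam := ⟨_, rfl⟩
  rw [← hτ] at hδ
  have hτ0 : 0 < τ := by rw [hτ]; apply div_pos <;> linarith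
  have hτ1 : τ < 1 / 2 := by
    rw [hτ, div_lt_iff₀ hlam]
    linarith
  obtain ⟨η, hη⟩ : ∃ η : ℝ, η = (τ - δ) / 4 := ⟨_, rfl⟩
  have hη0 : 0 < η := by rw [hη]; linarith
  obtain ⟨ρ, hρ⟩ : ∃ ρ : ℝ, ρ = τ - η := ⟨_, rfl⟩
  have hρδ : δ < ρ := by rw [hρ, hη]; linarith
  have hρ0 : 0 < ρ := by linarith
  obtain ⟨cp, hcp⟩ : ∃ cp : ℝ, cp = (δ + ρ) / (2 * ρ) := ⟨_, rfl⟩
  have hcp1 : cp < 1 := by rw [hcp, div_lt_one (by positivity)]; linarith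
  have hcp2 : 1 / 2 ≤ cp := by
    rw [hcp, le_div_iff₀ (by positivity)]
    linarith
  have hcpρ : cp * ρ = δ + (ρ - δ) / 2 := by rw [hcp]; field_simp; ring
  obtain ⟨ξ, hξ⟩ : ∃ ξ : ℝ, ξ = (ρ - δ) / 2 := ⟨_, rfl⟩
  have hξ0 : 0 < ξ := by rw [hξ]; linarith
  obtain ⟨σ, hσ⟩ : ∃ σ : ℝ, σ = 3 / (1 - cp) := ⟨_, rfl⟩
  have hcp10 : 0 < 1 - cp := by linarith
  have hσcp : σ * (1 - cp) = 3 := by rw [hσ]; field_simp
  have hσ2 : 2 ≤ σ := by
    rw [hσ, le_div_iff₀ hcp10]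
    linarith
  obtain ⟨K, hK⟩ : ∃ K : ℝ, K = 2 ^ (-σ) * ((σ + 1) ^ A)⁻¹ / 8 := ⟨_, rfl⟩
  have hK0 : 0 < K := by
    rw [hK]
    have : (0 : ℝ) < 2 ^ (-σ) := Real.rpow_pos_of_pos (by norm_num) _
    positivity
  obtain ⟨K₂, hK₂⟩ : ∃ K₂ : ℝ, K₂ = 2 * (2 ^ (A + 2) * (σ + 1) ^ A * K ^ ((1 : ℝ) / 2)) / (K / 2) ^ σ := ⟨_, rfl⟩
  -- conditions on `Q`
  have hX : Tendsto (fun Q : ℝ => ⌈Q ^ cp⌉₊) atTop atTop :=
    tendsto_nat_ceil_atTop.comp (tendsto_rpow_atTop (by linarith))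
  have c1 : ∀ᶠ Q : ℝ in atTop, 4 ≤ Q ^ (1 - cp) := (tendsto_rpow_atTop hcp10).eventually_ge_atTop 4
  have c2 : ∀ᶠ Q : ℝ in atTop, (Real.log Q) ^ 4 * (2 * Q ^ (-(cp * η))) ^ 2 ≤ ε₀ := by
    have h1 : Tendsto (fun Q : ℝ => 4 * ((Real.log Q) ^ 4 / Q ^ (2 * (cp * η)))) atTop (nhds (4 * 0)) := by
      apply Tendsto.const_mul
      have hb : 0 < 2 * (cp * η) := by positivity
      have := (isLittleO_log_rpow_rpow_atTop (s := 2 * (cp * η)) 4 hb).tendsto_div_nhds_zero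
      refine this.congr' ?_
      filter_upwards [eventually_ge_atTop 1] with Q hQ
      congr 1
      rw [← Real.rpow_natCast]
      norm_num
    rw [mul_zero] at h1
    filter_upwards [h1.eventually_le_const hε₀, eventually_ge_atTop 1] with Q h2 hQ
    refine le_trans (le_of_eq ?_) h2
    have hQ0 : 0 < Q := by linarith
    rw [mul_pow, ← Real.rpow_natCast (Q ^ (-(cp * η))) 2, ← Real.rpow_mul hQ0.le]
    have e : -(cp * η) * ((2 : ℕ) : ℝ) = -(2 * (cp * η)) := by push_cast; ring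
    rw [e, Real.rpow_neg hQ0.le]
    ring
  have c3 : ∀ᶠ Q : ℝ in atTop, X₀ ≤ ⌈Q ^ cp⌉₊ := hX.eventually_ge_atTop X₀
  have c4 : ∀ᶠ X : ℕ in atTop, (X : ℝ) ^ (1 / 2 + ρ) ≤ ηH * X / Real.log X := by
    have h1 : Tendsto (fun x : ℝ => Real.log x / x ^ (1 / 2 - ρ)) atTop (nhds 0) :=
      (isLittleO_log_rpow_atTop (by linarith)).tendsto_div_nhds_zero
    have h2 := h1.comp tendsto_natCast_atTop_atTop
    filter_upwards [h2.eventually_le_const hηH, eventually_ge_atTop 3] with X h3 hX3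
    simp only [Function.comp] at h3
    have hX0 : (0 : ℝ) < X := by
      have : 0 < X := by omega
      exact_mod_cast this
    have hlog : 0 < Real.log X := Real.log_pos (by
      have : 1 < X := by omega
      exact_mod_cast this)
    rw [le_div_iff₀ hlog]
    rw [div_le_iff₀ (Real.rpow_pos_of_pos hX0 _)] at h3
    calc (X : ℝ) ^ (1 / 2 + ρ) * Real.log X ≤ (X : ℝ) ^ (1 / 2 + ρ) * (ηH * (X : ℝ) ^ (1 / 2 - ρ)) :=
          mul_le_mul_of_nonneg_left h3 (by positivity)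
      _ = ηH * ((X : ℝ) ^ (1 / 2 + ρ) * (X : ℝ) ^ (1 / 2 - ρ)) := by ring
      _ = ηH * X := by
          rw [← Real.rpow_add hX0]
          have : 1 / 2 + ρ + (1 / 2 - ρ) = 1 := by ring
          rw [this, Real.rpow_one]
  have c4' := hX.eventually c4
  have c5 : ∀ᶠ Q : ℝ in atTop, K₂ < Q ^ ξ := (tendsto_rpow_atTop hξ0).eventually_gt_atTop K₂
  obtain ⟨Q₁, hQ₁⟩ := (c1.and (c2.and (c3.and (c4'.and (c5.and ((eventually_ge_atTop (4 ^ (σ + 2))).and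
    ((eventually_ge_atTop Q₀).and (eventually_ge_atTop (2 : ℝ))))))))).exists_forall_of_atTop
  refine ⟨max 1 Q₁, le_max_left _ _, fun Q hQ => ?_⟩
  obtain ⟨d1, d2, d3, d4, d5, d6, d7, d8⟩ := hQ₁ Q ((le_max_right _ _).trans hQ)
  have hQ0 : 0 < Q := by linarith
  have hQ1 : 1 ≤ Q := by linarith
  obtain ⟨X, hXd⟩ : ∃ X : ℕ, X = ⌈Q ^ cp⌉₊ := ⟨_, rfl⟩
  rw [← hXd] at d3 d4
  have hQcp : 1 ≤ Q ^ cp := Real.one_le_rpow hQ1 (by linarith)
  have hXlo : Q ^ cp ≤ X := by rw [hXd]; exact Nat.le_ceil _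
  have hXhi : (X : ℝ) ≤ 2 * Q ^ cp := by
    have : (X : ℝ) < Q ^ cp + 1 := by rw [hXd]; exact Nat.ceil_lt_add_one (by linarith)
    linarith
  have hX1 : (1 : ℝ) ≤ X := hQcp.trans hXlo
  have hX0 : (0 : ℝ) < X := by linarith
  have hXQ2 : Q ≤ (X : ℝ) ^ 2 := by
    calc Q = Q ^ (1 : ℝ) := (Real.rpow_one Q).symm
      _ ≤ Q ^ (cp * 2) := Real.rpow_le_rpow_of_exponent_le hQ1 (by linarith)
      _ = (Q ^ cp) ^ 2 := by
          rw [Real.rpow_mul hQ0.le]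
          norm_num
      _ ≤ (X : ℝ) ^ 2 := pow_le_pow_left₀ (by linarith) hXlo 2
  have h2XQ : 2 * (X : ℝ) ≤ Q := by
    have e1 : Q = Q ^ cp * Q ^ (1 - cp) := by
      rw [← Real.rpow_add hQ0]
      have : cp + (1 - cp) = 1 := by ring
      rw [this, Real.rpow_one]
    have e2 : Q ^ cp * 4 ≤ Q ^ cp * Q ^ (1 - cp) := mul_le_mul_of_nonneg_left d1 (by linarith)
    linarith
  -- the set of primes
  have hexp : 0 ≤ 1 / 2 + ρ := by linarith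
  obtain ⟨N, hN⟩ : ∃ N : ℕ, N = ⌊(X : ℝ) ^ (1 / 2 + ρ)⌋₊ := ⟨_, rfl⟩
  have hXpow : 1 ≤ (X : ℝ) ^ (1 / 2 + ρ) := Real.one_le_rpow hX1 hexp
  have hN1 : 1 ≤ N := by rw [hN]; exact Nat.le_floor (by push_cast; exact hXpow)
  have hNhi : (N : ℝ) ≤ (X : ℝ) ^ (1 / 2 + ρ) := by rw [hN]; exact Nat.floor_le (by positivity)
  have hNlo : (X : ℝ) ^ (1 / 2 + ρ) ≤ 2 * N := by
    have h1 : (X : ℝ) ^ (1 / 2 + ρ) < N + 1 := by rw [hN]; exact Nat.lt_floor_add_one _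
    have h2 : (1 : ℝ) ≤ N := by exact_mod_cast hN1
    linarith
  have hcount : N ≤ ((Ioc X (X + X)).filter Nat.Prime).card := by
    have h1 := hH X X d3 (by
      calc (X : ℝ) ^ (1 - δH) ≤ (X : ℝ) ^ (1 : ℝ) := Real.rpow_le_rpow_of_exponent_le hX1 (by linarith)
        _ = X := Real.rpow_one _) le_rfl
    have h2 : (N : ℝ) ≤ ((Ioc X (X + X)).filter Nat.Prime).card := hNhi.trans (d4.trans h1)
    exact_mod_cast h2
  obtain ⟨P, hPsub, hPcard⟩ := Finset.exists_subset_card_eq hcount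
  have hPmem : ∀ p ∈ P, p.Prime ∧ (X : ℝ) < p ∧ (p : ℝ) ≤ 2 * X := by
    intro p hp
    have h1 := hPsub hp
    rw [mem_filter, mem_Ioc] at h1
    refine ⟨h1.2, by exact_mod_cast h1.1.1, ?_⟩
    have : (p : ℝ) ≤ ((X + X : ℕ) : ℝ) := by exact_mod_cast h1.1.2
    push_cast at this
    linarith
  -- the mass
  have hmass : (Real.log Q) ^ 4 * (∏ p ∈ P, (1 + (p : ℝ) ^ (1 / lam - (1 / 2 + m / lam))) - 1) ^ 2 ≤ ε₀ := by
    have e0 : 1 / lam - (1 / 2 + m / lam) = -(1 / 2 + τ) := by rw [hτ]; ring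
    rw [e0]
    have h1 : ∏ p ∈ P, (1 + (p : ℝ) ^ (-(1 / 2 + τ))) ≤ Real.exp (X ^ (-η)) := by
      calc ∏ p ∈ P, (1 + (p : ℝ) ^ (-(1 / 2 + τ))) ≤ ∏ p ∈ P, Real.exp ((X : ℝ) ^ (-(1 / 2 + τ))) := by
            apply Finset.prod_le_prod
            · intro p _
              positivity
            · intro p hp
              have h2 : (p : ℝ) ^ (-(1 / 2 + τ)) ≤ (X : ℝ) ^ (-(1 / 2 + τ)) :=
                Real.rpow_le_rpow_of_nonpos hX0 (hPmem p hp).2.1.le (by linarith)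
              have h3 := Real.add_one_le_exp ((X : ℝ) ^ (-(1 / 2 + τ)))
              linarith
        _ = Real.exp (N * (X : ℝ) ^ (-(1 / 2 + τ))) := by
            rw [prod_const, hPcard, ← Real.exp_nat_mul]
        _ ≤ Real.exp (X ^ (-η)) := by
            apply Real.exp_le_exp.2
            calc (N : ℝ) * (X : ℝ) ^ (-(1 / 2 + τ)) ≤ (X : ℝ) ^ (1 / 2 + ρ) * (X : ℝ) ^ (-(1 / 2 + τ)) :=
                  mul_le_mul_of_nonneg_right hNhi (by positivity)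
              _ = (X : ℝ) ^ (-η) := by
                  rw [← Real.rpow_add hX0]
                  congr 1
                  rw [hρ]
                  ring
    have h2 : (X : ℝ) ^ (-η) ≤ Q ^ (-(cp * η)) := by
      calc (X : ℝ) ^ (-η) ≤ (Q ^ cp) ^ (-η) := Real.rpow_le_rpow_of_nonpos (by linarith) hXlo (by linarith)
        _ = Q ^ (-(cp * η)) := by rw [← Real.rpow_mul hQ0.le]; congr 1; ring
    have h3 : Q ^ (-(cp * η)) ≤ 1 := Real.rpow_le_one_of_one_le_of_nonpos hQ1 (by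
      have : 0 < cp * η := by positivity
      linarith)
    have h4 : Real.exp (X ^ (-η)) - 1 ≤ 2 * Q ^ (-(cp * η)) := by
      have h5 : 0 ≤ (X : ℝ) ^ (-η) := by positivity
      have h6 : |(X : ℝ) ^ (-η)| ≤ 1 := by rw [abs_of_nonneg h5]; linarith
      have h7 := Real.abs_exp_sub_one_le h6
      rw [abs_of_nonneg h5] at h7
      have h8 := le_abs_self (Real.exp ((X : ℝ) ^ (-η)) - 1)
      linarith
    have h5 : 0 ≤ ∏ p ∈ P, (1 + (p : ℝ) ^ (-(1 / 2 + τ))) - 1 := by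
      have : 1 ≤ ∏ p ∈ P, (1 + (p : ℝ) ^ (-(1 / 2 + τ))) := by
        calc (1 : ℝ) = ∏ _p ∈ P, (1 : ℝ) := by simp
          _ ≤ _ := by
            apply Finset.prod_le_prod
            · intro p _
              exact zero_le_one
            · intro p _
              have : 0 ≤ (p : ℝ) ^ (-(1 / 2 + τ)) := by positivity
              linarith
      linarith
    refine le_trans ?_ d2
    apply mul_le_mul_of_nonneg_left _ (by positivity)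
    apply pow_le_pow_left₀ h5
    linarith
  obtain ⟨g, F, hF, hgP, hg0, hz⟩ := hE Q d7 P (fun _ => 1) (fun p hp => ⟨(hPmem p hp).1, by
    have := (hPmem p hp).2.2
    linarith⟩) (fun p _ => by simp) hmass
  refine ⟨g, F, hF, hz, fun hbd => ?_⟩
  -- contradiction
  have hPne : P.Nonempty := by
    rw [← card_pos, hPcard]
    omega
  have hQδ : 1 ≤ Q ^ δ := Real.one_le_rpow hQ1 hδ0
  obtain ⟨C₀, hgr⟩ := hF.growth
  have htail : ∀ σ' : ℝ, 4 ^ (σ' + 1) ≤ Q ^ (σ' * (1 - cp) - 2) → 0 ≤ σ' → 4 * Q ^ (2 - σ') ≤ (2 * (X : ℝ)) ^ (-σ') := by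
    intro σ' h1 h0
    have h2 : (4 * Q ^ cp) ^ (-σ') ≤ (2 * (X : ℝ)) ^ (-σ') :=
      Real.rpow_le_rpow_of_nonpos (by positivity) (by linarith) (by linarith)
    refine le_trans ?_ h2
    have h3 : (4 * Q ^ cp) ^ (-σ') = 4 ^ (-σ') * Q ^ (-(cp * σ')) := by
      rw [Real.mul_rpow (by norm_num) (by positivity), ← Real.rpow_mul hQ0.le]
      congr 2
      ring
    rw [h3]
    have h4 : Q ^ (2 - σ') * Q ^ (σ' * (1 - cp) - 2) = Q ^ (-(cp * σ')) := by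
      rw [← Real.rpow_add hQ0]
      congr 1
      ring
    rw [← h4]
    have h5 : (4 : ℝ) ^ (-σ') * 4 ^ (σ' + 1) = 4 := by
      rw [← Real.rpow_add (by norm_num)]
      have : -σ' + (σ' + 1) = 1 := by ring
      rw [this, Real.rpow_one]
    have h6 : (0 : ℝ) < 4 ^ (-σ') := Real.rpow_pos_of_pos (by norm_num) _
    have h7 : 0 < Q ^ (2 - σ') := Real.rpow_pos_of_pos hQ0 _
    calc 4 * Q ^ (2 - σ') = 4 ^ (-σ') * (Q ^ (2 - σ') * 4 ^ (σ' + 1)) := by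
          calc 4 * Q ^ (2 - σ') = ((4 : ℝ) ^ (-σ') * 4 ^ (σ' + 1)) * Q ^ (2 - σ') := by rw [h5]
            _ = _ := by ring
      _ ≤ 4 ^ (-σ') * (Q ^ (2 - σ') * Q ^ (σ' * (1 - cp) - 2)) := by
          apply mul_le_mul_of_nonneg_left _ h6.le
          exact mul_le_mul_of_nonneg_left h1 h7.le
  have ht1 : 4 * Q ^ (2 - σ) ≤ (2 * (X : ℝ)) ^ (-σ) := by
    apply htail σ _ (by linarith)
    rw [hσcp]
    calc (4 : ℝ) ^ (σ + 1) ≤ 4 ^ (σ + 2) := Real.rpow_le_rpow_of_exponent_le (by norm_num) (by linarith)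
      _ ≤ Q := d6
      _ = Q ^ ((3 : ℝ) - 2) := by
          have : (3 : ℝ) - 2 = 1 := by norm_num
          rw [this, Real.rpow_one]
  have ht2 : 4 * Q ^ (2 - (σ + 1)) ≤ (2 * (X : ℝ)) ^ (-(σ + 1)) := by
    apply htail (σ + 1) _ (by linarith)
    have e : (σ + 1) * (1 - cp) - 2 = 1 + (1 - cp) := by
      have : (σ + 1) * (1 - cp) = σ * (1 - cp) + (1 - cp) := by ring
      rw [this, hσcp]
      ring
    rw [e]
    have e2 : σ + 1 + 1 = σ + 2 := by ring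
    rw [e2]
    calc (4 : ℝ) ^ (σ + 2) ≤ Q := d6
      _ = Q ^ (1 : ℝ) := (Real.rpow_one Q).symm
      _ ≤ Q ^ (1 + (1 - cp)) := Real.rpow_le_rpow_of_exponent_le hQ1 (by linarith)
  have key := lower (P := P) hF.diff hgr hF.series (co_bdd hF.bdd) (co_one g)
    (fun p hp => (hPmem p hp).1.one_lt) (fun p hp => by
      rw [co_prime g (hPmem p hp).1, hgP p hp]
      simp) hQ1 (fun n hn hnP hnQ => co_zero_of hX0 (fun p hp => ⟨(hPmem p hp).1, (hPmem p hp).2.1⟩) hg0 hXQ2 hn hnP hnQ)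
    hX1 (fun p hp => ⟨(hPmem p hp).2.1.le, (hPmem p hp).2.2⟩) hPne hσ2 ht1 ht2 A hQδ hbd hK
  rw [hPcard] at key
  -- numerical contradiction
  have hKσ : 0 < (K / 2) ^ σ := Real.rpow_pos_of_pos (by positivity) _
  have h1 : (X : ℝ) ^ (1 / 2 + ρ) * (K / 2) ^ σ ≤
      2 * (2 ^ (A + 2) * (σ + 1) ^ A * Q ^ δ * (K * X) ^ ((1 : ℝ) / 2)) := by
    calc (X : ℝ) ^ (1 / 2 + ρ) * (K / 2) ^ σ ≤ (2 * N) * (K / 2) ^ σ :=
          mul_le_mul_of_nonneg_right hNlo hKσ.le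
      _ = 2 * (N * (K / 2) ^ σ) := by ring
      _ ≤ _ := by linarith
  have h2 : (X : ℝ) ^ (1 / 2 + ρ) = (X : ℝ) ^ ((1 : ℝ) / 2) * (X : ℝ) ^ ρ := by rw [Real.rpow_add hX0]
  rw [h2, Real.mul_rpow hK0.le hX0.le] at h1
  have hX12 : 0 < (X : ℝ) ^ ((1 : ℝ) / 2) := Real.rpow_pos_of_pos hX0 _
  have h3 : (X : ℝ) ^ ρ * (K / 2) ^ σ ≤ 2 * (2 ^ (A + 2) * (σ + 1) ^ A * K ^ ((1 : ℝ) / 2)) * Q ^ δ := by
    have h4 : (X : ℝ) ^ ((1 : ℝ) / 2) * ((X : ℝ) ^ ρ * (K / 2) ^ σ) ≤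
        (X : ℝ) ^ ((1 : ℝ) / 2) * (2 * (2 ^ (A + 2) * (σ + 1) ^ A * K ^ ((1 : ℝ) / 2)) * Q ^ δ) := by
      refine le_trans (le_of_eq ?_) (h1.trans (le_of_eq ?_)) <;> ring
    exact le_of_mul_le_mul_left h4 hX12
  have h5 : Q ^ (δ + ξ) ≤ (X : ℝ) ^ ρ := by
    calc Q ^ (δ + ξ) = (Q ^ cp) ^ ρ := by
          rw [← Real.rpow_mul hQ0.le, hcpρ, hξ]
      _ ≤ (X : ℝ) ^ ρ := Real.rpow_le_rpow (by linarith) hXlo hρ0.le
  have h6 : Q ^ ξ ≤ K₂ := by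
    rw [hK₂, le_div_iff₀ hKσ]
    have hQδ0 : 0 < Q ^ δ := by linarith
    have h7 : Q ^ δ * (Q ^ ξ * (K / 2) ^ σ) ≤ Q ^ δ * (2 * (2 ^ (A + 2) * (σ + 1) ^ A * K ^ ((1 : ℝ) / 2))) := by
      calc Q ^ δ * (Q ^ ξ * (K / 2) ^ σ) = Q ^ (δ + ξ) * (K / 2) ^ σ := by
            rw [Real.rpow_add hQ0]; ring
        _ ≤ (X : ℝ) ^ ρ * (K / 2) ^ σ := mul_le_mul_of_nonneg_right h5 hKσ.le
        _ ≤ _ := h3.trans (le_of_eq (by ring))
    exact le_of_mul_le_mul_left h7 hQδ0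
  linarith

end Pool.Agent.Q286.SP
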